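import Mathlib

set_option autoImplicit false

namespace Pool.Agent.Results.MP_3982fc_al.CyclicAmalgamVRC

universe u

/-- `H` is a virtual retract of `G`: some finite-index subgroup `K` containing `H` admits a
homomorphism onto `H` restricting to the identity on `H`. -/
def IsVirtualRetract {G : Type*} [Group G] (H : Subgroup G) : Prop :=
  ∃ K : Subgroup G, K.FiniteIndex ∧ H ≤ K ∧
    ∃ r : K →* G, (∀ k : K, r k ∈ H) ∧ ∀ k : K, (k : G) ∈ H → r k = k

/-- Property (VRC): every cyclic subgroup is a virtual retract. -/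
def VRC (G : Type*) [Group G] : Prop :=
  ∀ g : G, IsVirtualRetract (Subgroup.zpowers g)

/-- Some positive power of `g` survives in a homomorphism to `ℤ` from a finite-index subgroup. -/
def VS {G : Type*} [Group G] (g : G) : Prop :=
  ∃ K : Subgroup G, K.FiniteIndex ∧ ∃ f : K →* Multiplicative ℤ, ∃ n : ℕ, 0 < n ∧
    ∃ h : g ^ n ∈ K, f ⟨g ^ n, h⟩ ≠ 1

section VSlemmas

variable {G : Type*} [Group G]

lemma mint_pow_ne_one {x : Multiplicative ℤ} (hx : x ≠ 1) {n : ℕ} (hn : 0 < n) : x ^ n ≠ 1 := by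
  intro h
  apply hx
  have h1 : (n : ℤ) * Multiplicative.toAdd x = 0 := by
    have := congrArg Multiplicative.toAdd h
    simpa using this
  have h2 : Multiplicative.toAdd x = 0 := by
    rcases mul_eq_zero.mp h1 with h3 | h3
    · exact absurd (by exact_mod_cast h3) hn.ne'
    · exact h3
  exact Multiplicative.toAdd.injective (by simpa using h2)

lemma mint_ne_one_of_pow {x : Multiplicative ℤ} {n : ℕ} (h : x ^ n ≠ 1) : x ≠ 1 := by
  rintro rfl; simp at h

lemma finiteIndex_comap {G' : Type*} [Group G'] (f : G' →* G) (B : Subgroup G)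
    (hB : B.FiniteIndex) : (B.comap f).FiniteIndex := by
  constructor
  rw [Subgroup.index_comap]
  exact (Subgroup.isFiniteRelIndex_of_finiteIndex (K := f.range)).relIndex_ne_zero

/-- Normal version of the property `VS`. -/
lemma VS.exists_normal {g : G} (h : VS g) : ∃ N : Subgroup G, N.Normal ∧ N.FiniteIndex ∧
    ∃ f : N →* Multiplicative ℤ, ∃ n : ℕ, 0 < n ∧ ∃ h : g ^ n ∈ N, f ⟨g ^ n, h⟩ ≠ 1 := by
  obtain ⟨K, hK, f, n, hn, hg, hf⟩ := h
  have := hK
  refine ⟨K.normalCore, inferInstance, inferInstance,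
    f.comp (Subgroup.inclusion K.normalCore_le), ?_⟩
  have hidx : K.normalCore.index ≠ 0 := Subgroup.FiniteIndex.index_ne_zero
  refine ⟨n * K.normalCore.index, Nat.mul_pos hn (Nat.pos_of_ne_zero hidx), ?_, ?_⟩
  · rw [pow_mul]
    exact Subgroup.pow_index_mem _ _
  · have : (Subgroup.inclusion K.normalCore_le)
        ⟨g ^ (n * K.normalCore.index), by rw [pow_mul]; exact Subgroup.pow_index_mem _ _⟩
        = (⟨g ^ n, hg⟩ : K) ^ K.normalCore.index := by
      apply Subtype.ext
      simp [pow_mul]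
    rw [MonoidHom.comp_apply, this, map_pow]
    exact mint_pow_ne_one hf (Nat.pos_of_ne_zero hidx)

open scoped Classical in
lemma exists_hom_of_normal (N : Subgroup G) [N.Normal] [N.FiniteIndex]
    (f : N →* Multiplicative ℤ) (g : G) (n : ℕ) (hn : g ^ n ∈ N)
    (hf : f ⟨g ^ n, hn⟩ ≠ 1) :
    ∃ F : ↥(Subgroup.zpowers g ⊔ N) →* Multiplicative ℤ,
      F ⟨g, (le_sup_left : _ ≤ Subgroup.zpowers g ⊔ N) (Subgroup.mem_zpowers g)⟩ ≠ 1 := by
  set L : Subgroup G := Subgroup.zpowers g ⊔ N with hL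
  have hNL : N ≤ L := le_sup_right
  have hgL : g ∈ L := (le_sup_left : _ ≤ L) (Subgroup.mem_zpowers g)
  let H : Subgroup L := N.subgroupOf L
  have : H.FiniteIndex := inferInstance
  have : H.Normal := inferInstance
  let e : H ≃* N := Subgroup.subgroupOfEquivOfLe hNL
  let ϕ : H →* Multiplicative ℤ := f.comp e.toMonoidHom
  refine ⟨MonoidHom.transfer ϕ, ?_⟩
  apply mint_ne_one_of_pow (n := n)
  rw [← map_pow]
  set γ : L := (⟨g, hgL⟩ : L) ^ n with hγ
  have hγH : γ ∈ H := by
    rw [Subgroup.mem_subgroupOf]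
    simpa [hγ] using hn
  have : Fintype (Quotient (MulAction.orbitRel (Subgroup.zpowers γ) (L ⧸ H))) :=
    Fintype.ofFinite _
  rw [MonoidHom.transfer_eq_prod_quotient_orbitRel_zpowers_quot]
  have key : ∀ (t : L) (k : ℕ) (hk : t⁻¹ * γ ^ k * t ∈ H),
      ϕ ⟨t⁻¹ * γ ^ k * t, hk⟩ = ϕ ⟨γ, hγH⟩ ^ k := by
    intro t k hk
    have ht : (t : G) ∈ Subgroup.zpowers g ⊔ N := t.2
    rw [Subgroup.mem_sup_of_normal_right] at ht
    obtain ⟨a, ha, b, hb, hab⟩ := ht
    obtain ⟨j, rfl⟩ := Subgroup.mem_zpowers_iff.mp ha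
    have h1 : e ⟨t⁻¹ * γ ^ k * t, hk⟩ = (⟨b, hb⟩ : N)⁻¹ * (⟨g ^ n, hn⟩ : N) ^ k * ⟨b, hb⟩ := by
      apply Subtype.ext
      show (((t⁻¹ * γ ^ k * t : L)) : G) = _
      have hcomm : (g ^ j)⁻¹ * (g ^ n) ^ k * g ^ j = (g ^ n) ^ k := by
        have : Commute (g ^ j) ((g ^ n) ^ k) :=
          ((Commute.refl g).zpow_left j).pow_right n |>.pow_right k
        rw [mul_assoc, ← this.eq, ← mul_assoc]; simp
      simp only [Subgroup.coe_mul, Subgroup.coe_inv, SubmonoidClass.coe_pow, hγ, ← hab, mul_inv_rev]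
      calc b⁻¹ * (g ^ j)⁻¹ * (g ^ n) ^ k * (g ^ j * b)
          = b⁻¹ * ((g ^ j)⁻¹ * (g ^ n) ^ k * g ^ j) * b := by group
        _ = _ := by rw [hcomm]
    have h2 : e ⟨γ, hγH⟩ = (⟨g ^ n, hn⟩ : N) := by
      apply Subtype.ext
      show ((γ : L) : G) = _
      simp [hγ]
    show f (e _) = (f (e _)) ^ k
    rw [h1, h2, map_mul, map_mul, map_inv, map_pow, mul_comm, ← mul_assoc, mul_inv_cancel, one_mul]
  have hone : ϕ ⟨γ, hγH⟩ = f ⟨g ^ n, hn⟩ := by
    show f (e _) = _
    congr 1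
  simp_rw [key]
  rw [Finset.prod_pow_eq_pow_sum, hone]
  apply mint_pow_ne_one hf
  apply Finset.sum_pos
  · intro q _
    refine Function.IsPeriodicPt.minimalPeriod_pos Nat.one_pos ?_
    show γ • q.out = q.out
    induction q.out using QuotientGroup.induction_on with
    | H z =>
      show ((γ * z : L) : L ⧸ H) = (z : L ⧸ H)
      rw [eq_comm, QuotientGroup.eq]
      have := Subgroup.Normal.conj_mem inferInstance γ hγH z⁻¹
      simpa [mul_assoc] using this
  · exact ⟨Quotient.mk _ ((1 : L) : L ⧸ H), Finset.mem_univ _⟩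

/-- A homomorphism to `ℤ` not killing `g`, defined on a finite-index subgroup containing `g`,
makes the cyclic group generated by `g` a virtual retract. -/
lemma isVirtualRetract_of_hom {g : G} (L : Subgroup G) [L.FiniteIndex] (hg : g ∈ L)
    (F : L →* Multiplicative ℤ) (hF : F ⟨g, hg⟩ ≠ 1) :
    IsVirtualRetract (Subgroup.zpowers g) := by
  classical
  set a : Multiplicative ℤ := F ⟨g, hg⟩ with ha
  set s : ℤ := Multiplicative.toAdd a with hs
  have hs0 : s ≠ 0 := by
    intro h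
    apply hF
    exact Multiplicative.toAdd.injective h
  let Z : Subgroup (Multiplicative ℤ) := Subgroup.zpowers a
  have hZ : Z.FiniteIndex := by
    have h1 : (AddSubgroup.zmultiples s).index ≠ 0 := by
      rw [Int.index_zmultiples]
      simpa using hs0
    constructor
    have : Z.index = (AddSubgroup.zmultiples s).index := by
      have : Z = AddSubgroup.toSubgroup (AddSubgroup.zmultiples s) := by
        ext x
        constructor
        · rintro ⟨k, rfl⟩
          exact ⟨k, by simp [hs]⟩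
        · rintro ⟨k, hk⟩
          refine ⟨k, ?_⟩
          exact Multiplicative.toAdd.injective (by simpa [hs] using hk)
      rw [this]
      rfl
    rw [this]
    exact h1
  have hmem : ∀ x : L, x ∈ Z.comap F → ∃ k : ℤ, F x = a ^ k := by
    intro x hx
    obtain ⟨k, hk⟩ := Subgroup.mem_zpowers_iff.mp hx
    exact ⟨k, hk.symm⟩
  have hinj : ∀ k l : ℤ, a ^ k = a ^ l → k = l := by
    intro k l h
    have h1 : k * s = l * s := by
      have := congrArg Multiplicative.toAdd h
      simpa [hs] using this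
    exact mul_right_cancel₀ hs0 h1
  let K : Subgroup G := (Z.comap F).map L.subtype
  have hK : K.FiniteIndex := by
    constructor
    rw [Subgroup.index_map_subtype]
    refine mul_ne_zero ?_ Subgroup.FiniteIndex.index_ne_zero
    exact (finiteIndex_comap F Z hZ).index_ne_zero
  have hKL : K ≤ L := Subgroup.map_subtype_le _
  have hK2 : ∀ x : K, ∃ k : ℤ, F ⟨x, hKL x.2⟩ = a ^ k := by
    rintro ⟨x, ⟨y, hy, hyx⟩⟩
    obtain ⟨k, hk⟩ := hmem y hy
    refine ⟨k, ?_⟩
    rw [← hk]
    congr 1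
    exact Subtype.ext hyx.symm
  choose e he using hK2
  refine ⟨K, hK, ?_, ?_⟩
  · rw [Subgroup.zpowers_le]
    exact ⟨⟨g, hg⟩, Subgroup.mem_zpowers _, rfl⟩
  · refine ⟨{ toFun := fun x => g ^ e x, map_one' := ?_, map_mul' := ?_ }, ?_, ?_⟩
    · have : e 1 = 0 := by
        apply hinj
        rw [← he, zpow_zero]
        exact map_one F
      rw [this, zpow_zero]
    · intro x y
      have : e (x * y) = e x + e y := by
        apply hinj
        rw [← he, zpow_add, ← he, ← he, ← map_mul]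
        rfl
      rw [this, zpow_add]
    · intro k
      exact Subgroup.mem_zpowers_iff.mpr ⟨e k, rfl⟩
    · intro k hk
      obtain ⟨j, hj⟩ := Subgroup.mem_zpowers_iff.mp hk
      show g ^ e k = _
      have : e k = j := by
        apply hinj
        rw [← he]
        have : (⟨(k : G), hKL k.2⟩ : L) = ⟨g, hg⟩ ^ j := by
          apply Subtype.ext
          rw [← hj]; rfl
        rw [this, map_zpow]
      rw [this, hj]

/-- `VS g` implies that `⟨g⟩` is a virtual retract. -/
lemma VS.isVirtualRetract {g : G} (h : VS g) : IsVirtualRetract (Subgroup.zpowers g) := by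
  obtain ⟨N, hN, hNf, f, n, _, hn, hf⟩ := h.exists_normal
  obtain ⟨F, hF⟩ := exists_hom_of_normal N f g n hn hf
  have : (Subgroup.zpowers g ⊔ N).FiniteIndex :=
    Subgroup.finiteIndex_of_le (le_sup_right : N ≤ _)
  exact isVirtualRetract_of_hom _ _ F hF

/-- Pulling back `VS` along a homomorphism from a finite-index subgroup. -/
lemma VS.of_hom {A : Type*} [Group A] {g : G} (K : Subgroup G) [K.FiniteIndex] (h : K →* A)
    (n : ℕ) (hn0 : 0 < n) (hn : g ^ n ∈ K) (hA : VS (h ⟨g ^ n, hn⟩)) : VS g := by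
  obtain ⟨B, hB, f, m, hm, hmB, hf⟩ := hA
  refine ⟨(B.comap h).map K.subtype, ?_, ?_⟩
  · constructor
    rw [Subgroup.index_map_subtype]
    refine mul_ne_zero ?_ Subgroup.FiniteIndex.index_ne_zero
    exact (finiteIndex_comap h B hB).index_ne_zero
  · let e : (B.comap h) ≃* ((B.comap h).map K.subtype) :=
      (B.comap h).equivMapOfInjective K.subtype K.subtype_injective
    let q : (B.comap h) →* B := (h.comp (B.comap h).subtype).codRestrict B (fun x => x.2)
    refine ⟨(f.comp q).comp e.symm.toMonoidHom, n * m, Nat.mul_pos hn0 hm, ?_, ?_⟩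
    · refine ⟨⟨g ^ n, hn⟩ ^ m, ?_, ?_⟩
      · show h _ ∈ B
        rw [map_pow]; exact hmB
      · simp [pow_mul]
    · have hx : (⟨g ^ n, hn⟩ : K) ^ m ∈ B.comap h := by
        show h _ ∈ B
        rw [map_pow]; exact hmB
      have h1 : ∀ (y : ((B.comap h).map K.subtype)), (y : G) = g ^ (n * m) →
          e.symm y = ⟨⟨g ^ n, hn⟩ ^ m, hx⟩ := by
        intro y hy
        rw [MulEquiv.symm_apply_eq]
        apply Subtype.ext
        rw [hy]
        simp [e, pow_mul]
      show f (q (e.symm _)) ≠ 1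
      rw [h1 _ rfl]
      convert hf using 2
      apply Subtype.ext
      show h (⟨g ^ n, hn⟩ ^ m) = _
      rw [map_pow]

/-- Conjugation invariance. -/
lemma IsVirtualRetract.conj {g : G} (h : IsVirtualRetract (Subgroup.zpowers g)) (x : G) :
    IsVirtualRetract (Subgroup.zpowers (x * g * x⁻¹)) := by
  obtain ⟨K, hK, hle, r, hr1, hr2⟩ := h
  let c : G ≃* G := MulAut.conj x
  have hz : ∀ y : G, y ∈ Subgroup.zpowers (x * g * x⁻¹) ↔ x⁻¹ * y * x ∈ Subgroup.zpowers g := by
    intro y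
    constructor
    · intro hy
      obtain ⟨k, rfl⟩ := Subgroup.mem_zpowers_iff.mp hy
      refine Subgroup.mem_zpowers_iff.mpr ⟨k, ?_⟩
      rw [conj_zpow]; group
    · intro hy
      obtain ⟨k, hk⟩ := Subgroup.mem_zpowers_iff.mp hy
      refine Subgroup.mem_zpowers_iff.mpr ⟨k, ?_⟩
      rw [conj_zpow, hk]; group
  let K' : Subgroup G := K.comap (MulAut.conj x⁻¹).toMonoidHom
  have hK' : K'.FiniteIndex := finiteIndex_comap _ _ hK
  have hmem : ∀ y : G, y ∈ K' ↔ x⁻¹ * y * x ∈ K := by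
    intro y
    show (MulAut.conj x⁻¹) y ∈ K ↔ _
    simp [MulAut.conj_apply]
  let q : K' →* K := (((MulAut.conj x⁻¹).toMonoidHom).comp K'.subtype).codRestrict K
    (fun y => y.2)
  refine ⟨K', hK', ?_, (c.toMonoidHom.comp r).comp q, ?_, ?_⟩
  · intro y hy
    rw [hmem]
    exact hle ((hz y).mp hy)
  · intro k
    rw [hz]
    have : x⁻¹ * (c (r (q k))) * x = r (q k) := by
      simp only [c, MulAut.conj_apply]; group
    show x⁻¹ * (c (r (q k))) * x ∈ _
    rw [this]
    exact hr1 _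
  · intro k hk
    have h1 : ((q k : K) : G) = x⁻¹ * k * x := by
      show (MulAut.conj x⁻¹) (k : G) = _
      simp [MulAut.conj_apply]
    have h2 : r (q k) = q k := by
      apply hr2
      rw [h1]
      exact (hz _).mp hk
    show c (r (q k)) = k
    rw [h2, h1]
    simp only [c, MulAut.conj_apply]; group

/-- A homomorphism to a finite group that is injective on `⟨g⟩` makes it a virtual retract. -/
lemma isVirtualRetract_of_finite {D : Type*} [Group D] [Finite D] {g : G} (π : G →* D)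
    (h : ∀ k : ℤ, π (g ^ k) = 1 → g ^ k = 1) : IsVirtualRetract (Subgroup.zpowers g) := by
  let Z := Subgroup.zpowers g
  let ρ : Z →* D := π.comp Z.subtype
  have hρ : Function.Injective ρ := by
    rw [injective_iff_map_eq_one]
    rintro ⟨y, hy⟩ h1
    obtain ⟨k, rfl⟩ := Subgroup.mem_zpowers_iff.mp hy
    exact Subtype.ext (h k h1)
  let e : Z ≃* ρ.range := MonoidHom.ofInjective hρ
  let K : Subgroup G := ρ.range.comap π
  have hK : K.FiniteIndex := finiteIndex_comap _ _ inferInstance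
  let q : K →* ρ.range := (π.comp K.subtype).codRestrict ρ.range (fun x => x.2)
  refine ⟨K, hK, ?_, (Z.subtype.comp e.symm.toMonoidHom).comp q, ?_, ?_⟩
  · intro y hy
    exact ⟨⟨y, hy⟩, rfl⟩
  · intro k
    exact (e.symm (q k)).2
  · intro k hk
    have : e.symm (q k) = ⟨k, hk⟩ := by
      rw [MulEquiv.symm_apply_eq]
      rfl
    show ((e.symm (q k) : Z) : G) = k
    rw [this]

end VSlemmas


section Stab

variable {G Ω A : Type*} [Group G] [Finite Ω] [Group A]

lemma stab_hom (Θ : G →* Equiv.Perm (Ω × A))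
    (hΘ : ∀ g ω a, Θ g (ω, a) = ((Θ g (ω, 1)).1, (Θ g (ω, 1)).2 * a)) (ω : Ω) :
    ∃ K : Subgroup G, K.FiniteIndex ∧ (∀ g : G, g ∈ K ↔ (Θ g (ω, 1)).1 = ω) ∧
      ∃ h : K →* A, ∀ g : K, h g = (Θ (g : G) (ω, 1)).2 := by
  let act : MulAction G Ω :=
    { smul := fun g ω => (Θ g (ω, 1)).1
      one_smul := fun ω => by show (Θ 1 (ω, 1)).1 = ω; simp
      mul_smul := fun g g' ω => by
        show (Θ (g * g') (ω, 1)).1 = (Θ g ((Θ g' (ω, 1)).1, 1)).1
        rw [map_mul, Equiv.Perm.mul_apply]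
        conv_lhs => rw [← Prod.mk.eta (p := Θ g' (ω, 1)), hΘ g] }
  have hsm : ∀ (g : G) (ω : Ω), g • ω = (Θ g (ω, 1)).1 := fun _ _ => rfl
  refine ⟨MulAction.stabilizer G ω, ?_, fun g => Iff.rfl, ?_⟩
  · have : Finite (G ⧸ MulAction.stabilizer G ω) :=
      Finite.of_equiv _ (MulAction.orbitEquivQuotientStabilizer G ω)
    exact Subgroup.finiteIndex_of_finite_quotient
  · refine ⟨{ toFun := fun g => (Θ g (ω, 1)).2, map_one' := by simp, map_mul' := ?_ }, ?_⟩
    · intro x y
      have hy : (Θ (y : G) (ω, 1)).1 = ω := y.2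
      show (Θ ((x * y : MulAction.stabilizer G ω) : G) (ω, 1)).2 = _
      rw [Subgroup.coe_mul, map_mul, Equiv.Perm.mul_apply]
      conv_lhs => rw [← Prod.mk.eta (p := Θ (y : G) (ω, 1)), hΘ x, hy]
    · intro g
      rfl

lemma VS.of_perm (Θ : G →* Equiv.Perm (Ω × A))
    (hΘ : ∀ g ω a, Θ g (ω, a) = ((Θ g (ω, 1)).1, (Θ g (ω, 1)).2 * a)) (ω : Ω)
    (g : G) (n : ℕ) (hn : 0 < n) (a : A) (h : Θ (g ^ n) (ω, 1) = (ω, a)) (ha : VS a) :
    VS g := by
  obtain ⟨K, hK, hmem, f, hf⟩ := stab_hom Θ hΘ ω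
  have hg : g ^ n ∈ K := by rw [hmem, h]
  refine VS.of_hom K f n hn hg ?_
  rw [hf]
  show VS (Θ (g ^ n) (ω, 1)).2
  rw [h]; exact ha

lemma VS.of_mint {a : Multiplicative ℤ} (ha : a ≠ 1) : VS a :=
  ⟨⊤, inferInstance, (⊤ : Subgroup (Multiplicative ℤ)).subtype, 1, one_pos, trivial, by
    simpa using ha⟩

end Stab

section Equi

variable {Ω A : Type*} [Group A]

/-- Permutations of `Ω × A` commuting with right multiplication by `A`. -/
def Equi (σ : Equiv.Perm (Ω × A)) : Prop :=
  ∀ ω a b, σ (ω, a * b) = ((σ (ω, a)).1, (σ (ω, a)).2 * b)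

lemma Equi.one : Equi (1 : Equiv.Perm (Ω × A)) := fun _ _ _ => rfl

lemma Equi.mul {σ τ : Equiv.Perm (Ω × A)} (hσ : Equi σ) (hτ : Equi τ) : Equi (σ * τ) := by
  intro ω a b
  rw [Equiv.Perm.mul_apply, Equiv.Perm.mul_apply, hτ, hσ, Prod.mk.eta]

lemma Equi.inv {σ : Equiv.Perm (Ω × A)} (hσ : Equi σ) : Equi σ⁻¹ := by
  intro ω a b
  have h : σ (σ⁻¹ (ω, a)) = (ω, a) := σ.apply_symm_apply _
  rw [Equiv.Perm.inv_eq_iff_eq, hσ, Prod.mk.eta, h]

lemma Equi.apply {σ : Equiv.Perm (Ω × A)} (hσ : Equi σ) (ω : Ω) (a : A) :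
    σ (ω, a) = ((σ (ω, 1)).1, (σ (ω, 1)).2 * a) := by
  rw [← hσ, one_mul]

/-- The weighted permutation `(ω, a) ↦ (P ω, κ ω * a)`. -/
def wperm (P : Equiv.Perm Ω) (κ : Ω → A) : Equiv.Perm (Ω × A) where
  toFun x := (P x.1, κ x.1 * x.2)
  invFun x := (P⁻¹ x.1, (κ (P⁻¹ x.1))⁻¹ * x.2)
  left_inv x := by simp
  right_inv x := by simp

lemma wperm_apply (P : Equiv.Perm Ω) (κ : Ω → A) (ω : Ω) (a : A) :
    wperm P κ (ω, a) = (P ω, κ ω * a) := rfl

lemma wperm_equi (P : Equiv.Perm Ω) (κ : Ω → A) : Equi (wperm P κ) := by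
  intro ω a b
  simp [wperm_apply, mul_assoc]

end Equi

section FreeGroupVS

variable {α : Type*}

lemma zmod_val_succ (n : ℕ) [NeZero n] (a : ZMod n) : (a + 1).val = (a.val + 1) % n := by
  rw [ZMod.val_add, ZMod.val_one_eq_one_mod, Nat.add_mod_mod]

/-- Letters of a word indexed cyclically. -/
def letter (L : List (α × Bool)) [NeZero L.length] (j : ZMod L.length) : α × Bool :=
  L[j.val]'(ZMod.val_lt j)

lemma letter_cyc {L : List (α × Bool)} [NeZero L.length]
    (hL : FreeGroup.IsCyclicallyReduced L) (j : ZMod L.length)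
    (h : (letter L j).1 = (letter L (j + 1)).1) : (letter L j).2 = (letter L (j + 1)).2 := by
  have hlt := ZMod.val_lt j
  by_cases hj : j.val + 1 < L.length
  · have hv : (j + 1).val = j.val + 1 := by
      rw [zmod_val_succ, Nat.mod_eq_of_lt hj]
    have h1 := hL.1
    rw [FreeGroup.IsReduced, List.isChain_iff_getElem] at h1
    have h2 := h1 j.val hj
    simp only [letter, hv] at h ⊢
    exact h2 h
  · have hj' : j.val + 1 = L.length := by omega
    have hv : (j + 1).val = 0 := by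
      rw [zmod_val_succ, hj', Nat.mod_self]
    have h1 := hL.2 (letter L j) (by
      rw [Option.mem_def, List.getLast?_eq_getElem?]
      have : L.length - 1 = j.val := by omega
      rw [this, List.getElem?_eq_getElem hlt]
      rfl) (letter L (j + 1)) (by
      rw [Option.mem_def, List.head?_eq_getElem?]
      have h0 : 0 < L.length := by omega
      rw [List.getElem?_eq_getElem h0]
      simp only [letter, hv])
    exact h1 h

open scoped Classical in
lemma exists_perm (L : List (α × Bool)) [NeZero L.length]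
    (hL : FreeGroup.IsCyclicallyReduced L) (s : α) :
    ∃ P : Equiv.Perm (ZMod L.length), ∀ a : ZMod L.length,
      (letter L (a - 1) = (s, true) → P a = a - 1) ∧ (letter L a = (s, false) → P a = a + 1) := by
  let m : ZMod L.length → ZMod L.length := fun a =>
    if letter L (a - 1) = (s, true) then a - 1 else a + 1
  let S : Set (ZMod L.length) := {a | letter L (a - 1) = (s, true) ∨ letter L a = (s, false)}
  have key : ∀ a b : ZMod L.length, letter L (a - 1) = (s, true) → letter L b = (s, false) →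
      a - 1 = b + 1 → False := by
    intro a b ha hb hab
    have h1 := letter_cyc hL b (by rw [← hab, ha, hb])
    rw [← hab, ha, hb] at h1
    simp at h1
  have key2 : ∀ a : ZMod L.length, letter L (a - 1) = (s, true) → letter L a = (s, false) →
      False := by
    intro a ha hb
    have h1 := letter_cyc hL (a - 1) (by rw [sub_add_cancel, ha, hb])
    rw [sub_add_cancel, ha, hb] at h1
    simp at h1
  have hinj : Set.InjOn m S := by
    intro a ha b hb hab
    by_cases h1 : letter L (a - 1) = (s, true) <;> by_cases h2 : letter L (b - 1) = (s, true)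
    · simp only [m, if_pos h1, if_pos h2] at hab
      exact sub_left_injective hab
    · simp only [m, if_pos h1, if_neg h2] at hab
      exact (key a b h1 (hb.resolve_left h2) hab).elim
    · simp only [m, if_neg h1, if_pos h2] at hab
      exact (key b a h2 (ha.resolve_left h1) hab.symm).elim
    · simp only [m, if_neg h1, if_neg h2] at hab
      exact add_left_injective _ hab
  have hmaps : Set.MapsTo m S (Finset.univ : Finset (ZMod L.length)) := by
    intro a _; simp
  obtain ⟨g, hg⟩ := hmaps.exists_equiv_extend_of_card_eq (by simp) hinj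
  refine ⟨g.trans (Equiv.subtypeUnivEquiv (by simp)), fun a => ⟨fun h => ?_, fun h => ?_⟩⟩
  · show ((g a : _) : ZMod L.length) = _
    rw [hg a (Or.inl h)]
    simp only [m, if_pos h]
  · show ((g a : _) : ZMod L.length) = _
    rw [hg a (Or.inr h)]
    have : letter L (a - 1) ≠ (s, true) := fun h' => key2 a h' h
    simp only [m, if_neg this]

open scoped Classical in
/-- Every nontrivial element of a free group has a power surviving in a homomorphism to `ℤ` from a
finite-index subgroup. -/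
lemma VS.of_cyclicallyReduced (L : List (α × Bool)) (hne : L ≠ [])
    (hL : FreeGroup.IsCyclicallyReduced L) : VS (FreeGroup.mk L) := by
  have : NeZero L.length := ⟨by simpa using hne⟩
  choose P hP using exists_perm L hL
  let κ : α → ZMod L.length → Multiplicative ℤ := fun s a =>
    if letter L (a - 1) = (s, true) then Multiplicative.ofAdd (-1)
    else if letter L a = (s, false) then Multiplicative.ofAdd 1 else 1
  let Θ : FreeGroup α →* Equiv.Perm (ZMod L.length × Multiplicative ℤ) :=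
    FreeGroup.lift (fun s => wperm (P s) (κ s))
  have hΘ : ∀ g, Equi (Θ g) := by
    intro g
    induction g using FreeGroup.induction_on with
    | C1 => rw [map_one]; exact Equi.one
    | of s => simp only [Θ, FreeGroup.lift_apply_of]; exact wperm_equi _ _
    | inv_of s h => rw [map_inv]; exact h.inv
    | mul x y hx hy => rw [map_mul]; exact hx.mul hy
  have step : ∀ (p : ZMod L.length) (z : Multiplicative ℤ),
      Θ (FreeGroup.mk [letter L p]) (p + 1, z) = (p, Multiplicative.ofAdd (-1) * z) := by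
    intro p z
    rcases hb : letter L p with ⟨s, b⟩
    cases b with
    | true =>
      have h1 : Θ (FreeGroup.mk [(s, true)]) = wperm (P s) (κ s) := FreeGroup.lift_apply_of
      have h2 : letter L (p + 1 - 1) = (s, true) := by rw [add_sub_cancel_right, hb]
      rw [h1, wperm_apply, (hP s (p + 1)).1 h2, add_sub_cancel_right]
      simp only [κ, if_pos h2]
    | false =>
      have h1 : Θ (FreeGroup.mk [(s, false)]) = (wperm (P s) (κ s))⁻¹ := by
        have : FreeGroup.mk [(s, false)] = (FreeGroup.of s)⁻¹ := rfl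
        rw [this, map_inv]
        congr 1
      have h3 : letter L (p - 1) ≠ (s, true) := by
        intro ha
        have h4 := letter_cyc hL (p - 1) (by rw [sub_add_cancel, ha, hb])
        rw [sub_add_cancel, ha, hb] at h4
        simp at h4
      rw [h1, Equiv.Perm.inv_eq_iff_eq, wperm_apply, (hP s p).2 hb]
      simp only [κ, if_neg h3, if_pos hb]
      rw [← mul_assoc, ← ofAdd_add]
      simp
  have main : ∀ j : ℕ, j ≤ L.length →
      Θ (FreeGroup.mk (L.drop (L.length - j))) (0, 1) =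
        (-(j : ZMod L.length), Multiplicative.ofAdd (-(j : ℤ))) := by
    intro j
    induction j with
    | zero =>
      intro _
      simp only [Nat.sub_zero, List.drop_length, Nat.cast_zero, neg_zero, ofAdd_zero]
      have : (FreeGroup.mk ([] : List (α × Bool))) = 1 := rfl
      rw [this, map_one]; rfl
    | succ j ih =>
      intro hj
      have hlt : L.length - (j + 1) < L.length := by omega
      have h1 : L.drop (L.length - (j + 1)) = L[L.length - (j + 1)] :: L.drop (L.length - j) := by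
        rw [List.drop_eq_getElem_cons hlt]
        congr 2
        omega
      have h2 : (-((j + 1 : ℕ) : ZMod L.length)).val = L.length - (j + 1) := by
        have : (-((j + 1 : ℕ) : ZMod L.length)) = ((L.length - (j + 1) : ℕ) : ZMod L.length) := by
          rw [Nat.cast_sub hj]; simp
        rw [this, ZMod.val_natCast, Nat.mod_eq_of_lt hlt]
      have h3 : L[L.length - (j + 1)] = letter L (-((j + 1 : ℕ) : ZMod L.length)) := by
        simp only [letter, h2]
      have h4 : FreeGroup.mk (L.drop (L.length - (j + 1))) =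
          FreeGroup.mk [letter L (-((j + 1 : ℕ) : ZMod L.length))] *
            FreeGroup.mk (L.drop (L.length - j)) := by
        rw [FreeGroup.mul_mk, h1, h3]; rfl
      have h5 : -(j : ZMod L.length) = -((j + 1 : ℕ) : ZMod L.length) + 1 := by
        push_cast; ring
      rw [h4, map_mul, Equiv.Perm.mul_apply, ih (by omega), h5, step]
      rw [← ofAdd_add]
      congr 2
      push_cast; ring
  have hfin := main L.length le_rfl
  rw [Nat.sub_self, List.drop_zero] at hfin
  refine VS.of_perm Θ (fun g ω a => (hΘ g).apply ω a) 0 _ 1 one_pos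
    (Multiplicative.ofAdd (-(L.length : ℤ))) ?_ (VS.of_mint ?_)
  · rw [pow_one, hfin]; simp
  · intro h
    have h1 : -(L.length : ℤ) = 0 := congrArg Multiplicative.toAdd h
    have h2 : L.length ≠ 0 := NeZero.ne _
    omega

lemma VS.conj {G : Type*} [Group G] {g : G} (h : VS g) (x : G) : VS (x * g * x⁻¹) := by
  obtain ⟨N, hN, hNf, f, n, hn, hg, hf⟩ := h.exists_normal
  have hmem : ∀ y : N, x⁻¹ * y * x ∈ N := by
    intro y
    simpa using hN.conj_mem y y.2 x⁻¹
  refine ⟨N, hNf, f.comp ⟨⟨fun y => ⟨x⁻¹ * y * x, hmem y⟩, ?_⟩, ?_⟩, n, hn, ?_, ?_⟩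
  · apply Subtype.ext; simp
  · intro y z
    apply Subtype.ext
    simp only [Subgroup.coe_mul]
    group
  · rw [conj_pow]; exact hN.conj_mem _ hg x
  · have h1 : (x * g * x⁻¹) ^ n ∈ N := by rw [conj_pow]; exact hN.conj_mem _ hg x
    have h2 : (⟨x⁻¹ * (⟨_, h1⟩ : N) * x, hmem ⟨_, h1⟩⟩ : N) = ⟨g ^ n, hg⟩ := by
      apply Subtype.ext
      show x⁻¹ * (x * g * x⁻¹) ^ n * x = g ^ n
      rw [conj_pow]; group
    show f ⟨x⁻¹ * (⟨_, h1⟩ : N) * x, hmem ⟨_, h1⟩⟩ ≠ 1
    rw [h2]; exact hf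

lemma VS.freeGroup (w : FreeGroup α) (hw : w ≠ 1) : VS w := by
  classical
  have h1 := FreeGroup.reduceCyclically.conj_conjugator_reduceCyclically w.toWord
  have h2 : w = FreeGroup.mk (FreeGroup.reduceCyclically.conjugator w.toWord) *
      FreeGroup.mk (FreeGroup.reduceCyclically w.toWord) *
      (FreeGroup.mk (FreeGroup.reduceCyclically.conjugator w.toWord))⁻¹ := by
    conv_lhs => rw [← FreeGroup.mk_toWord (x := w), ← h1]
    simp [FreeGroup.mul_mk, FreeGroup.inv_mk]
  rw [h2]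
  apply VS.conj
  apply VS.of_cyclicallyReduced
  · intro h
    apply hw
    rw [h2, h]
    have : (FreeGroup.mk ([] : List (α × Bool))) = 1 := rfl
    rw [this, mul_one, mul_inv_cancel]
  · exact FreeGroup.reduceCyclically.isCyclicallyReduced FreeGroup.isReduced_toWord

end FreeGroupVS


section Facts

variable {G : Type*} [Group G]

lemma finiteIndex_map_subtype (K : Subgroup G) (hK : K.FiniteIndex) (M : Subgroup K)
    (hM : M.FiniteIndex) : (M.map K.subtype).FiniteIndex := by
  constructor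
  rw [Subgroup.index_map_subtype]
  exact mul_ne_zero hM.index_ne_zero hK.index_ne_zero

lemma mem_map_subtype_iff (K : Subgroup G) (M : Subgroup K) (x : G) :
    x ∈ M.map K.subtype ↔ ∃ h : x ∈ K, (⟨x, h⟩ : K) ∈ M := by
  constructor
  · rintro ⟨y, hy, rfl⟩
    exact ⟨y.2, hy⟩
  · rintro ⟨h, hx⟩
    exact ⟨⟨x, h⟩, hx, rfl⟩

/-- Separation by a homomorphism from a finite-index subgroup to a finite group. -/
lemma exists_normal_of_finite (K : Subgroup G) (hK : K.FiniteIndex) {D : Type*} [Group D]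
    [Finite D] (ρ : K →* D) (g : G) (hg : ∀ h : g ∈ K, ρ ⟨g, h⟩ ≠ 1) :
    ∃ N : Subgroup G, N.Normal ∧ N.FiniteIndex ∧ g ∉ N := by
  have h1 : (ρ.ker).FiniteIndex := by
    rw [← MonoidHom.comap_bot]
    exact finiteIndex_comap _ _ inferInstance
  have h2 := finiteIndex_map_subtype K hK ρ.ker h1
  refine ⟨(ρ.ker.map K.subtype).normalCore, inferInstance, inferInstance, fun h => ?_⟩
  have h3 := Subgroup.normalCore_le _ h
  rw [mem_map_subtype_iff] at h3
  obtain ⟨h4, h5⟩ := h3
  exact hg h4 h5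

/-- From a virtual retraction onto an infinite cyclic group, a functional with value one. -/
lemma IsVirtualRetract.functional {a : G} (ha : ¬ IsOfFinOrder a)
    (h : IsVirtualRetract (Subgroup.zpowers a)) :
    ∃ K : Subgroup G, K.FiniteIndex ∧ ∃ hK : a ∈ K, ∃ f : K →* Multiplicative ℤ,
      f ⟨a, hK⟩ = Multiplicative.ofAdd 1 := by
  obtain ⟨K, hK, hle, r, hr1, hr2⟩ := h
  have haK : a ∈ K := hle (Subgroup.mem_zpowers a)
  have hinj : Function.Injective (fun n : ℤ => a ^ n) :=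
    injective_zpow_iff_not_isOfFinOrder.mpr ha
  have hex : ∀ k : K, ∃ n : ℤ, a ^ n = r k := fun k => Subgroup.mem_zpowers_iff.mp (hr1 k)
  choose e he using hex
  refine ⟨K, hK, haK, ⟨⟨fun k => Multiplicative.ofAdd (e k), ?_⟩, ?_⟩, ?_⟩
  · have : e 1 = 0 := hinj (by show a ^ _ = a ^ _; rw [he, map_one, zpow_zero])
    rw [this]; rfl
  · intro x y
    have : e (x * y) = e x + e y :=
      hinj (by show a ^ _ = a ^ _; rw [zpow_add, he, he, he, map_mul])
    show Multiplicative.ofAdd (e (x * y)) = _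
    rw [this]; rfl
  · have : e ⟨a, haK⟩ = 1 := by
      apply hinj
      show a ^ _ = a ^ _
      rw [he, zpow_one]
      exact hr2 ⟨a, haK⟩ (Subgroup.mem_zpowers a)
    show Multiplicative.ofAdd (e ⟨a, haK⟩) = _
    rw [this]

/-- A group with (VRC) is residually finite. -/
lemma VRC.resFinite (hG : VRC G) (g : G) (hg : g ≠ 1) :
    ∃ N : Subgroup G, N.Normal ∧ N.FiniteIndex ∧ g ∉ N := by
  by_cases h : IsOfFinOrder g
  · obtain ⟨K, hK, hle, r, hr1, hr2⟩ := hG g
    have hfin : Finite (Subgroup.zpowers g) := h.finite_zpowers.to_subtype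
    refine exists_normal_of_finite K hK (r.codRestrict (Subgroup.zpowers g) hr1) g ?_
    intro h1 h2
    have h3 : r ⟨g, h1⟩ = 1 := congrArg Subtype.val h2
    rw [hr2 ⟨g, h1⟩ (Subgroup.mem_zpowers g)] at h3
    exact hg h3
  · obtain ⟨K, hK, hgK, f, hf⟩ := (hG g).functional h
    refine exists_normal_of_finite K hK
      ((AddMonoidHom.toMultiplicative (Int.castAddHom (ZMod 2))).comp f) g ?_
    intro h1 h2
    rw [MonoidHom.comp_apply, hf] at h2
    have h3 : ((1 : ℤ) : ZMod 2) = 0 := congrArg Multiplicative.toAdd h2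
    simp at h3

lemma VRC.avoid (hG : VRC G) (S : Set G) (hS : S.Finite) :
    ∃ N : Subgroup G, N.Normal ∧ N.FiniteIndex ∧ ∀ x ∈ S, x ≠ 1 → x ∉ N := by
  induction S, hS using Set.Finite.induction_on with
  | empty => exact ⟨⊤, inferInstance, inferInstance, by simp⟩
  | @insert a S _ _ ih =>
    obtain ⟨N, hN, hNf, hNS⟩ := ih
    by_cases ha : a = 1
    · refine ⟨N, hN, hNf, fun x hx hx1 => ?_⟩
      rcases hx with rfl | hx
      · exact absurd ha hx1
      · exact hNS x hx hx1
    · obtain ⟨M, hM, hMf, hMa⟩ := hG.resFinite a ha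
      refine ⟨N ⊓ M, inferInstance, inferInstance, fun x hx hx1 hxN => ?_⟩
      rcases hx with rfl | hx
      · exact hMa hxN.2
      · exact hNS x hx hx1 hxN.1

/-- Cyclic subgroups are separable in a group with (VRC). -/
lemma VRC.separable (hG : VRC G) (a b : G) (hb : b ∉ Subgroup.zpowers a) :
    ∃ N : Subgroup G, N.Normal ∧ N.FiniteIndex ∧ ∀ k : ℤ, a ^ k * b ∉ N := by
  obtain ⟨K, hK, hle, r, hr1, hr2⟩ := hG a
  have haK : ∀ k : ℤ, a ^ k ∈ K := fun k => hle (Subgroup.mem_zpowers_iff.mpr ⟨k, rfl⟩)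
  by_cases hbK : b ∈ K
  · have hy : b * (r ⟨b, hbK⟩)⁻¹ ≠ 1 := by
      intro h
      rw [mul_inv_eq_one] at h
      apply hb
      rw [h]
      exact hr1 _
    obtain ⟨N₁, hN₁, hN₁f, hyN⟩ := hG.resFinite _ hy
    let M : Subgroup K := N₁.subgroupOf K ⊓ N₁.comap r
    have hMf : M.FiniteIndex := by
      have h1 : (N₁.comap r).FiniteIndex := finiteIndex_comap _ _ hN₁f
      have h2 : (N₁.subgroupOf K).FiniteIndex := inferInstance
      exact (inferInstance : (N₁.subgroupOf K ⊓ N₁.comap r).FiniteIndex)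
    have hMf' := finiteIndex_map_subtype K hK M hMf
    refine ⟨(M.map K.subtype).normalCore, inferInstance, inferInstance, fun k hk => ?_⟩
    have h3 := Subgroup.normalCore_le _ hk
    rw [mem_map_subtype_iff] at h3
    obtain ⟨h4, h5, h6⟩ := h3
    have h5' : a ^ k * b ∈ N₁ := h5
    have h6' : r ⟨a ^ k * b, h4⟩ ∈ N₁ := h6
    have h7 : r ⟨a ^ k * b, h4⟩ = a ^ k * r ⟨b, hbK⟩ := by
      have : (⟨a ^ k * b, h4⟩ : K) = ⟨a ^ k, haK k⟩ * ⟨b, hbK⟩ := rfl
      rw [this, map_mul, hr2 ⟨a ^ k, haK k⟩ (Subgroup.mem_zpowers_iff.mpr ⟨k, rfl⟩)]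
    rw [h7] at h6'
    have h8 := hN₁.conj_mem _ (N₁.mul_mem h5' (N₁.inv_mem h6')) (a ^ (-k))
    apply hyN
    convert h8 using 1
    rw [zpow_neg]
    group
  · refine ⟨K.normalCore, inferInstance, inferInstance, fun k hk => hbK ?_⟩
    have h1 := Subgroup.normalCore_le _ hk
    have h2 := K.mul_mem (K.inv_mem (haK k)) h1
    simpa using h2

/-- Separation of finitely many elements from a cyclic subgroup. -/
lemma VRC.separable_finite (hG : VRC G) (a : G) (S : Set G) (hS : S.Finite) :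
    ∃ N : Subgroup G, N.Normal ∧ N.FiniteIndex ∧
      ∀ b ∈ S, b ∉ Subgroup.zpowers a → ∀ k : ℤ, a ^ k * b ∉ N := by
  induction S, hS using Set.Finite.induction_on with
  | empty => exact ⟨⊤, inferInstance, inferInstance, by simp⟩
  | @insert b S _ _ ih =>
    obtain ⟨N, hN, hNf, hNS⟩ := ih
    by_cases hb : b ∈ Subgroup.zpowers a
    · refine ⟨N, hN, hNf, fun x hx hx1 => ?_⟩
      rcases hx with rfl | hx
      · exact absurd hb hx1
      · exact hNS x hx hx1
    · obtain ⟨M, hM, hMf, hMa⟩ := hG.separable a b hb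
      refine ⟨N ⊓ M, inferInstance, inferInstance, fun x hx hx1 k hxN => ?_⟩
      rcases hx with rfl | hx
      · exact hMa k hxN.2
      · exact hNS x hx hx1 k hxN.1

/-- Potency of elements of infinite order in a group with (VRC). -/
lemma VRC.potent (hG : VRC G) {a : G} (ha : ¬ IsOfFinOrder a) (N₀ : Subgroup G)
    [N₀.Normal] [N₀.FiniteIndex] :
    ∃ l : ℕ, 0 < l ∧ ∀ t : ℕ, 0 < t → ∃ N : Subgroup G, N.Normal ∧ N.FiniteIndex ∧ N ≤ N₀ ∧
      ∀ k : ℤ, a ^ k ∈ N ↔ ((l * t : ℕ) : ℤ) ∣ k := by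
  obtain ⟨K, hK, haK, f, hf⟩ := (hG a).functional ha
  let L : Subgroup G := K.normalCore ⊓ N₀
  have hLK : L ≤ K := inf_le_left.trans K.normalCore_le
  have hLn : L.Normal := inferInstance
  have hLf : L.FiniteIndex := inferInstance
  -- the exponents of `a` in `L`
  let E : AddSubgroup ℤ :=
    { carrier := {k | a ^ k ∈ L}
      zero_mem' := by simp [L.one_mem]
      add_mem' := fun {x y} hx hy => by
        show a ^ (x + y) ∈ L
        rw [zpow_add]; exact L.mul_mem hx hy
      neg_mem' := fun {x} hx => by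
        show a ^ (-x) ∈ L
        rw [zpow_neg]; exact L.inv_mem hx }
  obtain ⟨l₀, hl₀⟩ := Int.subgroup_cyclic E
  have hE : ∀ k : ℤ, a ^ k ∈ L ↔ l₀ ∣ k := by
    intro k
    have : a ^ k ∈ L ↔ k ∈ E := Iff.rfl
    rw [this, hl₀, ← AddSubgroup.zmultiples_eq_closure, Int.mem_zmultiples_iff]
  have hl0 : l₀ ≠ 0 := by
    intro h0
    have h1 : a ^ ((L.index : ℕ) : ℤ) ∈ L := by
      rw [zpow_natCast]; exact L.pow_index_mem a
    rw [hE, h0, zero_dvd_iff] at h1
    exact hLf.index_ne_zero (by exact_mod_cast h1)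
  have hconj : ∀ y : G, y * a ^ l₀ * y⁻¹ ∈ L := fun y =>
    hLn.conj_mem _ ((hE l₀).mpr dvd_rfl) y
  let s : G → ℤ := fun y => Multiplicative.toAdd (f ⟨y * a ^ l₀ * y⁻¹, hLK (hconj y)⟩)
  have hs1 : s 1 = l₀ := by
    have : (⟨1 * a ^ l₀ * 1⁻¹, hLK (hconj 1)⟩ : K) = ⟨a, haK⟩ ^ l₀ := by
      apply Subtype.ext; simp
    simp only [s]
    rw [this, map_zpow, hf]
    simp
  obtain ⟨d, hd⟩ := Int.subgroup_cyclic (AddSubgroup.closure (Set.range s))
  have hd' : ∀ k, k ∈ AddSubgroup.closure (Set.range s) ↔ d ∣ k := by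
    intro k
    rw [hd, ← AddSubgroup.zmultiples_eq_closure, Int.mem_zmultiples_iff]
  have hd0 : d ≠ 0 := by
    intro h0
    have h1 : s 1 ∈ AddSubgroup.closure (Set.range s) := AddSubgroup.subset_closure ⟨1, rfl⟩
    rw [hd', h0, zero_dvd_iff, hs1] at h1
    exact hl0 h1
  refine ⟨l₀.natAbs, Int.natAbs_pos.mpr hl0, fun t ht => ?_⟩
  let Z : Subgroup (Multiplicative ℤ) :=
    AddSubgroup.toSubgroup (AddSubgroup.zmultiples (d * t))
  have hZmem : ∀ x : Multiplicative ℤ, x ∈ Z ↔ d * t ∣ Multiplicative.toAdd x := by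
    intro x
    have : x ∈ Z ↔ Multiplicative.toAdd x ∈ AddSubgroup.zmultiples (d * t : ℤ) := Iff.rfl
    rw [this, Int.mem_zmultiples_iff]
  have hdt : d * t ≠ 0 := mul_ne_zero hd0 (by exact_mod_cast ht.ne')
  have hZ : Z.FiniteIndex := by
    constructor
    have : Z.index = (AddSubgroup.zmultiples (d * t : ℤ)).index := rfl
    rw [this, Int.index_zmultiples]
    simpa using hdt
  let M : Subgroup G := (Z.comap f).map K.subtype
  have hM : M.FiniteIndex := finiteIndex_map_subtype K hK _ (finiteIndex_comap _ _ hZ)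
  have hMmem : ∀ x (hx : x ∈ K), x ∈ M ↔ d * t ∣ Multiplicative.toAdd (f ⟨x, hx⟩) := by
    intro x hx
    rw [mem_map_subtype_iff]
    constructor
    · rintro ⟨_, h⟩; exact (hZmem _).mp h
    · intro h; exact ⟨hx, (hZmem _).mpr h⟩
  refine ⟨L ⊓ M.normalCore, inferInstance, inferInstance, inf_le_left.trans inf_le_right, ?_⟩
  intro k
  have hkey : ∀ j : ℤ, a ^ (l₀ * j) ∈ M.normalCore ↔ (t : ℤ) ∣ j := by
    intro j
    have h1 : ∀ y : G, y * a ^ (l₀ * j) * y⁻¹ = (y * a ^ l₀ * y⁻¹) ^ j := by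
      intro y; rw [conj_zpow, zpow_mul]
    have h2 : ∀ y : G, y * a ^ (l₀ * j) * y⁻¹ ∈ M ↔ d * t ∣ j * s y := by
      intro y
      have hyL : y * a ^ (l₀ * j) * y⁻¹ ∈ L := by rw [h1]; exact L.zpow_mem (hconj y) j
      rw [hMmem _ (hLK hyL)]
      have : (⟨y * a ^ (l₀ * j) * y⁻¹, hLK hyL⟩ : K) = ⟨y * a ^ l₀ * y⁻¹, hLK (hconj y)⟩ ^ j := by
        apply Subtype.ext
        exact h1 y
      rw [this, map_zpow]
      simp [s]
    constructor
    · intro h
      have h3 : ∀ y : G, d * t ∣ j * s y := fun y => (h2 y).mp (h y)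
      let F : AddSubgroup ℤ :=
        { carrier := {x | d * t ∣ j * x}
          zero_mem' := by simp
          add_mem' := fun {x y} hx hy => by
            show d * t ∣ j * (x + y)
            rw [mul_add]; exact dvd_add hx hy
          neg_mem' := fun {x} hx => by
            show d * t ∣ j * (-x)
            rw [mul_neg]; exact (dvd_neg).mpr hx }
      have h4 : AddSubgroup.closure (Set.range s) ≤ F := by
        rw [AddSubgroup.closure_le]
        rintro _ ⟨y, rfl⟩
        exact h3 y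
      have h5 : d * t ∣ j * d := h4 ((hd' d).mpr dvd_rfl)
      rw [mul_comm j d] at h5
      exact (mul_dvd_mul_iff_left hd0).mp h5
    · intro h y
      rw [h2]
      have h6 : d ∣ s y := (hd' _).mp (AddSubgroup.subset_closure ⟨y, rfl⟩)
      obtain ⟨u, hu⟩ := h6
      obtain ⟨v, hv⟩ := h
      exact ⟨u * v, by rw [hu, hv]; ring⟩
  have hdvd : ((l₀.natAbs * t : ℕ) : ℤ) ∣ k ↔ l₀ * t ∣ k := by
    rw [Nat.cast_mul]
    constructor
    · rintro ⟨u, rfl⟩
      rcases Int.natAbs_eq l₀ with h | h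
      · exact ⟨u, by rw [← h]⟩
      · refine ⟨-u, ?_⟩
        conv_rhs => rw [h]
        ring
    · rintro ⟨u, rfl⟩
      rcases Int.natAbs_eq l₀ with h | h
      · exact ⟨u, by rw [← h]⟩
      · refine ⟨-u, ?_⟩
        conv_lhs => rw [h]
        ring
  rw [hdvd]
  constructor
  · rintro ⟨h1, h2⟩
    obtain ⟨j, rfl⟩ := (hE k).mp h1
    exact mul_dvd_mul_left _ ((hkey j).mp h2)
  · rintro ⟨u, rfl⟩
    rw [mul_assoc]
    exact ⟨(hE _).mpr ⟨_, rfl⟩, (hkey _).mpr ⟨u, rfl⟩⟩

end Facts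

section Compat

variable {ι : Type*} [Finite ι] {G : ι → Type*} [∀ i, Group (G i)]

/-- Compatible choice of finite-index normal subgroups. -/
lemma compat (hG : ∀ i, VRC (G i)) (a : ∀ i, G i)
    (ho : (∀ i, ¬ IsOfFinOrder (a i)) ∨ ∃ m : ℕ, 0 < m ∧ ∀ i, orderOf (a i) = m)
    (N₀ : ∀ i, Subgroup (G i)) (h₀ : ∀ i, (N₀ i).Normal) (h₀' : ∀ i, (N₀ i).FiniteIndex) :
    ∃ (m : ℕ) (N : ∀ i, Subgroup (G i)), 0 < m ∧
      ((∀ i, ¬ IsOfFinOrder (a i)) ∨ ∀ i, a i ^ m = 1) ∧
      ∀ i, (N i).Normal ∧ (N i).FiniteIndex ∧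
      N i ≤ N₀ i ∧ ∀ k : ℤ, a i ^ k ∈ N i ↔ (m : ℤ) ∣ k := by
  classical
  have := Fintype.ofFinite ι
  rcases ho with ho | ⟨m, hm, ho⟩
  · choose l hl hN using fun i => (hG i).potent (ho i) (N₀ i)
    have ht : ∀ i, 0 < ∏ j ∈ Finset.univ.erase i, l j := fun i =>
      Finset.prod_pos (fun j _ => hl j)
    choose N h1 h2 h3 h4 using fun i => hN i _ (ht i)
    refine ⟨∏ j, l j, N, Finset.prod_pos (fun j _ => hl j), Or.inl ho,
      fun i => ⟨h1 i, h2 i, h3 i, ?_⟩⟩
    intro k
    rw [h4, Finset.mul_prod_erase Finset.univ l (Finset.mem_univ i)]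
  · have hex : ∀ i, ∃ N : Subgroup (G i), N.Normal ∧ N.FiniteIndex ∧
        ∀ x ∈ (Subgroup.zpowers (a i) : Set (G i)), x ≠ 1 → x ∉ N := by
      intro i
      refine (hG i).avoid _ ?_
      have hfo : IsOfFinOrder (a i) := by
        rw [← orderOf_pos_iff, ho i]; exact hm
      exact hfo.finite_zpowers
    choose M h1 h2 h3 using hex
    refine ⟨m, fun i => N₀ i ⊓ M i, hm, Or.inr (fun i => by rw [← ho i]; exact pow_orderOf_eq_one _),
      fun i => ⟨inferInstance, inferInstance, inf_le_left, ?_⟩⟩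
    intro k
    rw [← ho i, orderOf_dvd_iff_zpow_eq_one]
    constructor
    · rintro ⟨_, hk⟩
      by_contra hne
      exact h3 i _ (Subgroup.mem_zpowers_iff.mpr ⟨k, rfl⟩) hne hk
    · intro h
      rw [h]; exact Subgroup.one_mem _

end Compat



section Coord

variable {G : Type u} [Group G] (a : G) (m : ℕ) [NeZero m] (N : Subgroup G) [hN : N.Normal]

lemma mk_zpow_mul_eq (hm : ∀ k : ℤ, a ^ k ∈ N ↔ (m : ℤ) ∣ k) (k l : ℤ) (t : G) :
    ((a ^ k * t : G) : G ⧸ N) = ((a ^ l * t : G) : G ⧸ N) ↔ (m : ℤ) ∣ l - k := by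
  rw [QuotientGroup.eq, ← hm]
  have h1 : (a ^ k * t)⁻¹ * (a ^ l * t) = t⁻¹ * a ^ (l - k) * t := by
    rw [zpow_sub, mul_inv_rev]
    have : a ^ l * (a ^ k)⁻¹ = (a ^ k)⁻¹ * a ^ l := by
      rw [← zpow_neg, ← zpow_add, ← zpow_add, add_comm]
    rw [this]; group
  rw [h1]
  constructor
  · intro h
    have := hN.conj_mem _ h t
    convert this using 1
    group
  · intro h
    have := hN.conj_mem _ h t⁻¹
    simpa using this

lemma exists_coord (hm : ∀ k : ℤ, a ^ k ∈ N ↔ (m : ℤ) ∣ k) [N.FiniteIndex] :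
    ∃ (X : Type u) (_ : Finite X) (τ : X → G) (e : ZMod m × X ≃ G ⧸ N),
      ∀ j x, e (j, x) = ((a ^ j.val * τ x : G) : G ⧸ N) := by
  let X := MulAction.orbitRel.Quotient (Subgroup.zpowers a) (G ⧸ N)
  let τ : X → G := fun x => (Quotient.out x : G ⧸ N).out
  have hτ : ∀ x : X, ((τ x : G) : G ⧸ N) = Quotient.out x := fun x => QuotientGroup.out_eq' _
  have hX : ∀ (x : X) (k : ℤ), (Quotient.mk _ ((a ^ k * τ x : G) : G ⧸ N) : X) = x := by
    intro x k
    have h1 : (x : X) = Quotient.mk _ (Quotient.out x) := (Quotient.out_eq x).symm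
    conv_rhs => rw [h1]
    apply Quotient.sound
    show _ ∈ MulAction.orbit _ _
    refine ⟨⟨a ^ k, Subgroup.mem_zpowers_iff.mpr ⟨k, rfl⟩⟩, ?_⟩
    show (a ^ k : G) • (Quotient.out x : G ⧸ N) = _
    rw [← hτ]; rfl
  let e₀ : ZMod m × X → G ⧸ N := fun p => ((a ^ p.1.val * τ p.2 : G) : G ⧸ N)
  have hinj : Function.Injective e₀ := by
    rintro ⟨j, x⟩ ⟨j', x'⟩ h
    have h' : ((a ^ (j.val : ℤ) * τ x : G) : G ⧸ N) = ((a ^ (j'.val : ℤ) * τ x' : G) : G ⧸ N) := by
      rw [zpow_natCast, zpow_natCast]; exact h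
    have hx : x = x' := by
      rw [← hX x j.val, h', hX]
    subst hx
    rw [mk_zpow_mul_eq a m N hm] at h'
    have h1 := ZMod.val_lt j
    have h2 := ZMod.val_lt j'
    have h3 : ((j'.val : ℤ) - j.val) = 0 := by
      apply Int.eq_zero_of_abs_lt_dvd h'
      rw [abs_lt]; constructor <;> omega
    have h4 : j.val = j'.val := by omega
    rw [ZMod.val_injective m h4]
  have hsurj : Function.Surjective e₀ := by
    intro q
    let x : X := Quotient.mk _ q
    have h1 : (Quotient.mk _ (Quotient.out x) : X) = Quotient.mk _ q := Quotient.out_eq x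
    have h2 := Quotient.exact h1.symm
    obtain ⟨⟨y, hy⟩, h3⟩ := h2
    obtain ⟨k, rfl⟩ := Subgroup.mem_zpowers_iff.mp hy
    have h4 : ((a ^ k * τ x : G) : G ⧸ N) = q := by
      rw [← h3]
      show _ = (a ^ k : G) • (Quotient.out x : G ⧸ N)
      rw [← hτ]; rfl
    refine ⟨((k : ZMod m), x), ?_⟩
    show ((a ^ (k : ZMod m).val * τ x : G) : G ⧸ N) = q
    rw [← h4, ← zpow_natCast, mk_zpow_mul_eq a m N hm, ZMod.val_intCast]
    exact Int.dvd_self_sub_emod
  exact ⟨X, inferInstance, τ, Equiv.ofBijective e₀ ⟨hinj, hsurj⟩, fun j x => rfl⟩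

variable {a m N} {X : Type u} {τ : X → G} {e : ZMod m × X ≃ G ⧸ N}

lemma coord_gen (hm : ∀ k : ℤ, a ^ k ∈ N ↔ (m : ℤ) ∣ k)
    (he : ∀ j x, e (j, x) = ((a ^ j.val * τ x : G) : G ⧸ N)) (j : ZMod m) (x : X) :
    e.symm (a • e (j, x)) = (j + 1, x) := by
  rw [Equiv.symm_apply_eq, he, he]
  show ((a * (a ^ j.val * τ x) : G) : G ⧸ N) = _
  rw [← mul_assoc, ← pow_succ', ← zpow_natCast, ← zpow_natCast, mk_zpow_mul_eq a m N hm,
    zmod_val_succ]
  have h := Nat.mod_add_div (j.val + 1) m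
  refine ⟨-(((j.val + 1) / m : ℕ) : ℤ), ?_⟩
  have h' : (((j.val + 1) % m : ℕ) : ℤ) + m * (((j.val + 1) / m : ℕ) : ℤ) =
      ((j.val + 1 : ℕ) : ℤ) := by exact_mod_cast h
  linarith

lemma coord_sep (he : ∀ j x, e (j, x) = ((a ^ j.val * τ x : G) : G ⧸ N)) (b : G) (j : ZMod m)
    (x : X) (h : (e.symm (b • e (j, x))).2 = x) : ∃ k : ℤ, a ^ k * b ∈ N := by
  set p := e.symm (b • e (j, x)) with hp
  have h1 : e p = b • e (j, x) := by rw [hp, Equiv.apply_symm_apply]
  rw [← Prod.mk.eta (p := p), h, he, he] at h1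
  have h2 : ((a ^ p.1.val * τ x : G) : G ⧸ N) = ((b * (a ^ j.val * τ x) : G) : G ⧸ N) := h1
  rw [QuotientGroup.eq] at h2
  have h3 := hN.conj_mem _ h2 (a ^ p.1.val * τ x)
  have h4 := hN.conj_mem _ h3 (a ^ ((j.val : ℤ) - p.1.val))
  refine ⟨(j.val : ℤ) - p.1.val, ?_⟩
  convert h4 using 1
  rw [← zpow_natCast, ← zpow_natCast]
  group

/-- Extension of a functional on `N` to `G` by `1`. -/
noncomputable def extF (f : N →* Multiplicative ℤ) (g : G) : ℤ := by
  classical exact if h : g ∈ N then Multiplicative.toAdd (f ⟨g, h⟩) else 0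

omit hN in
lemma extF_mem (f : N →* Multiplicative ℤ) {g : G} (h : g ∈ N) :
    extF f g = Multiplicative.toAdd (f ⟨g, h⟩) := by
  simp [extF, h]

omit hN in
lemma extF_mul (f : N →* Multiplicative ℤ) {g g' : G} (h : g ∈ N) (h' : g' ∈ N) :
    extF f (g * g') = extF f g + extF f g' := by
  rw [extF_mem f h, extF_mem f h', extF_mem f (N.mul_mem h h'), ← toAdd_mul, ← map_mul]
  rfl

omit hN in
lemma extF_one (f : N →* Multiplicative ℤ) : extF f 1 = 0 := by
  rw [extF_mem f N.one_mem]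
  have : f ⟨1, N.one_mem⟩ = 1 := map_one f
  rw [this]; rfl

omit hN in
lemma extF_inv (f : N →* Multiplicative ℤ) {g : G} (h : g ∈ N) :
    extF f g⁻¹ = - extF f g := by
  have := extF_mul f (N.inv_mem h) h
  rw [inv_mul_cancel, extF_one] at this
  linarith

omit hN in
lemma extF_conj (f : N →* Multiplicative ℤ) {g n : G} (h : g ∈ N) (hn : n ∈ N) :
    extF f (n⁻¹ * g * n) = extF f g := by
  rw [extF_mul f (N.mul_mem (N.inv_mem hn) h) hn, extF_mul f (N.inv_mem hn) h, extF_inv f hn]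
  ring

end Coord

section Glue

open Monoid

variable {ι : Type*} [Nonempty ι] {C : Type*} [Group C] {G : ι → Type*} [∀ i, Group (G i)]

lemma glue (c : C) (hc : ∀ x, x ∈ Subgroup.zpowers c) (φ : ∀ i, C →* G i) {Ω A : Type*}
    [Group A] (P : ∀ i, G i →* Equiv.Perm Ω) (κ : ∀ i, G i → Ω → A)
    (hκ : ∀ i g g' ω, κ i (g * g') ω = κ i g (P i g' ω) * κ i g' ω)
    (hP : ∀ i j, P i (φ i c) = P j (φ j c)) (hκc : ∀ i j, κ i (φ i c) = κ j (φ j c)) :
    ∃ Θ : PushoutI φ →* Equiv.Perm (Ω × A), (∀ g, Equi (Θ g)) ∧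
      ∀ i g ω x, Θ (PushoutI.of i g) (ω, x) = (P i g ω, κ i g ω * x) := by
  let Θi : ∀ i, G i →* Equiv.Perm (Ω × A) := fun i =>
    MonoidHom.mk' (fun g => wperm (P i g) (κ i g)) (fun g g' => by
      apply Equiv.ext
      rintro ⟨ω, x⟩
      rw [Equiv.Perm.mul_apply, wperm_apply, wperm_apply, wperm_apply, map_mul,
        Equiv.Perm.mul_apply, hκ, mul_assoc])
  obtain ⟨i₀⟩ := (inferInstance : Nonempty ι)
  have hcomm : ∀ i, (Θi i).comp (φ i) = (Θi i₀).comp (φ i₀) := by
    intro i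
    have h1 : Θi i (φ i c) = Θi i₀ (φ i₀ c) := by
      show wperm _ _ = wperm _ _
      rw [hP i i₀, hκc i i₀]
    ext1 x
    obtain ⟨k, rfl⟩ := Subgroup.mem_zpowers_iff.mp (hc x)
    rw [map_zpow, map_zpow]
    congr 1
  refine ⟨PushoutI.lift Θi _ hcomm, ?_, ?_⟩
  · intro g
    induction g using PushoutI.induction_on with
    | of i g => rw [PushoutI.lift_of]; exact wperm_equi _ _
    | base h =>
      rw [PushoutI.lift_base]
      exact wperm_equi _ _
    | mul x y hx hy => rw [map_mul]; exact hx.mul hy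
  · intro i g ω x
    rw [PushoutI.lift_of]
    rfl

end Glue

section Act

variable {ι : Type*} [DecidableEq ι] {G : ι → Type u} [∀ i, Group (G i)] {a : ∀ i, G i} {m : ℕ}
  [NeZero m] {N : ∀ i, Subgroup (G i)} [hN : ∀ i, (N i).Normal] {X : ι → Type u}
  {τ : ∀ i, X i → G i} (e : ∀ i, ZMod m × X i ≃ G i ⧸ N i)

/-- The action of `G i` on `ZMod m × ∏ X`, through the coordinates `(j, x i)`. -/
def actP (i : ι) : G i →* Equiv.Perm (ZMod m × ∀ i, X i) :=
  @MulAction.toPermHom (G i) (ZMod m × ∀ i, X i) _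
    { smul := fun g ω =>
        (((e i).symm (g • e i (ω.1, ω.2 i))).1,
          Function.update ω.2 i ((e i).symm (g • e i (ω.1, ω.2 i))).2)
      one_smul := fun ω => by
        show (((e i).symm ((1 : G i) • e i (ω.1, ω.2 i))).1, _) = ω
        simp
      mul_smul := fun g g' ω => by
        show (((e i).symm ((g * g') • e i (ω.1, ω.2 i))).1,
          Function.update ω.2 i ((e i).symm ((g * g') • e i (ω.1, ω.2 i))).2) =
          (((e i).symm (g • e i (((e i).symm (g' • e i (ω.1, ω.2 i))).1,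
            Function.update ω.2 i ((e i).symm (g' • e i (ω.1, ω.2 i))).2 i))).1,
          Function.update (Function.update ω.2 i ((e i).symm (g' • e i (ω.1, ω.2 i))).2) i
            ((e i).symm (g • e i (((e i).symm (g' • e i (ω.1, ω.2 i))).1,
            Function.update ω.2 i ((e i).symm (g' • e i (ω.1, ω.2 i))).2 i))).2)
        rw [Function.update_self, Prod.mk.eta, Equiv.apply_symm_apply, Function.update_idem,
          mul_smul] }

lemma actP_apply (i : ι) (g : G i) (j : ZMod m) (x : ∀ i, X i) :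
    actP e i g (j, x) = (((e i).symm (g • e i (j, x i))).1,
      Function.update x i ((e i).symm (g • e i (j, x i))).2) := rfl

lemma actP_gen (hm : ∀ i, ∀ k : ℤ, a i ^ k ∈ N i ↔ (m : ℤ) ∣ k)
    (he : ∀ i j x, e i (j, x) = ((a i ^ j.val * τ i x : G i) : G i ⧸ N i))
    (i : ι) (j : ZMod m) (x : ∀ i, X i) : actP e i (a i) (j, x) = (j + 1, x) := by
  rw [actP_apply, coord_gen (hm i) (he i), Function.update_eq_self]

lemma actP_mem (i : ι) (g : G i) (hg : g ∈ N i) : actP e i g = 1 := by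
  apply Equiv.ext
  rintro ⟨j, x⟩
  have h : g • e i (j, x i) = e i (j, x i) := by
    induction e i (j, x i) using QuotientGroup.induction_on with
    | H z =>
      show ((g * z : G i) : G i ⧸ N i) = (z : G i ⧸ N i)
      rw [eq_comm, QuotientGroup.eq]
      have := (hN i).conj_mem g hg z⁻¹
      simpa [mul_assoc] using this
  rw [actP_apply, h, Equiv.symm_apply_apply]
  simp

lemma mem_of_actP (i : ι) (g : G i) (j : ZMod m) (x : ∀ i, X i)
    (h : actP e i g (j, x) = (j, x)) : g ∈ N i := by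
  have h1 := congrArg Prod.fst h
  have h2 := congrArg (fun p => p.2 i) h
  simp only [actP_apply, Function.update_self] at h1 h2
  have h3 : (e i).symm (g • e i (j, x i)) = (j, x i) := Prod.ext h1 h2
  rw [Equiv.symm_apply_eq] at h3
  generalize e i (j, x i) = q at h3
  induction q using QuotientGroup.induction_on with
  | H z =>
    have h4 : ((g * z : G i) : G i ⧸ N i) = (z : G i ⧸ N i) := h3
    rw [eq_comm, QuotientGroup.eq] at h4
    have := (hN i).conj_mem _ h4 z
    simpa [mul_assoc] using this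

lemma actP_snd_ne (he : ∀ i j x, e i (j, x) = ((a i ^ j.val * τ i x : G i) : G i ⧸ N i))
    (i : ι) (b : G i) (hb : ∀ k : ℤ, a i ^ k * b ∉ N i) (ω : ZMod m × ∀ i, X i) :
    (actP e i b ω).2 ≠ ω.2 := by
  obtain ⟨j, x⟩ := ω
  intro h
  have h2 : Function.update x i ((e i).symm (b • e i (j, x i))).2 i = x i := congrFun h i
  rw [Function.update_self] at h2
  obtain ⟨k, hk⟩ := coord_sep (he i) b j (x i) h2
  exact hb k hk

end Act



open Monoid

section Weights

variable {ι : Type*} [Nonempty ι] [DecidableEq ι] {C : Type*} [Group C] {G : ι → Type u}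
  [∀ i, Group (G i)] {m : ℕ} [NeZero m] {N : ∀ i, Subgroup (G i)} [hN : ∀ i, (N i).Normal]
  {X : ι → Type u} {τ : ∀ i, X i → G i} {e : ∀ i, ZMod m × X i ≃ G i ⧸ N i}

/-- The chosen representative at a point of `ZMod m × ∏ X`. -/
def pt (a : ∀ i, G i) (τ : ∀ i, X i → G i) (i : ι) (ω : ZMod m × ∀ i, X i) : G i :=
  a i ^ ω.1.val * τ i (ω.2 i)

lemma pt_mem {a : ∀ i, G i}
    (he : ∀ i j x, e i (j, x) = ((a i ^ j.val * τ i x : G i) : G i ⧸ N i))
    (i : ι) (g : G i) (ω : ZMod m × ∀ i, X i) :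
    (pt a τ i (actP e i g ω))⁻¹ * g * pt a τ i ω ∈ N i := by
  have h1 : ∀ ω : ZMod m × ∀ i, X i, e i (ω.1, ω.2 i) = ((pt a τ i ω : G i) : G i ⧸ N i) :=
    fun ω => he i ω.1 (ω.2 i)
  have h2 : e i ((actP e i g ω).1, (actP e i g ω).2 i) = g • e i (ω.1, ω.2 i) := by
    obtain ⟨j, x⟩ := ω
    rw [actP_apply]
    simp
  rw [h1, h1] at h2
  have h3 : ((pt a τ i (actP e i g ω) : G i) : G i ⧸ N i) = ((g * pt a τ i ω : G i) : G i ⧸ N i) :=
    h2
  rw [QuotientGroup.eq] at h3
  rwa [mul_assoc]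

lemma weights (c : C) (hc : ∀ x, x ∈ Subgroup.zpowers c) (φ : ∀ i, C →* G i)
    (hm : ∀ i, ∀ k : ℤ, φ i c ^ k ∈ N i ↔ (m : ℤ) ∣ k)
    (he : ∀ i j x, e i (j, x) = ((φ i c ^ j.val * τ i x : G i) : G i ⧸ N i))
    (f : ∀ i, N i →* Multiplicative ℤ) (Λ : ι → (∀ i, X i) → ℤ)
    (hΛ : ∀ i x y, Λ i (Function.update x i y) = Λ i x)
    (hcons : ∀ i k x, Λ i x * extF (f i) ((τ i (x i))⁻¹ * φ i c ^ m * τ i (x i)) =
      Λ k x * extF (f k) ((τ k (x k))⁻¹ * φ k c ^ m * τ k (x k))) :
    ∃ Θ : PushoutI φ →* Equiv.Perm ((ZMod m × ∀ i, X i) × Multiplicative ℤ),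
      (∀ g, Equi (Θ g)) ∧ ∀ i g ω x, Θ (PushoutI.of i g) (ω, x) = (actP e i g ω,
        Multiplicative.ofAdd (Λ i ω.2 * extF (f i)
          ((pt (fun i => φ i c) τ i (actP e i g ω))⁻¹ * g * pt (fun i => φ i c) τ i ω)) * x) := by
  refine glue c hc φ (actP e) (fun i g ω => Multiplicative.ofAdd (Λ i ω.2 * extF (f i)
          ((pt (fun i => φ i c) τ i (actP e i g ω))⁻¹ * g * pt (fun i => φ i c) τ i ω)))
          ?_ ?_ ?_
  · intro i g g' ω
    have h1 : Λ i (actP e i g' ω).2 = Λ i ω.2 := by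
      obtain ⟨j, x⟩ := ω
      rw [actP_apply]; exact hΛ _ _ _
    rw [← ofAdd_add, h1, ← mul_add, ← extF_mul _ (pt_mem he i g _) (pt_mem he i g' ω)]
    congr 3
    rw [map_mul, Equiv.Perm.mul_apply]
    group
  · intro i k
    apply Equiv.ext
    rintro ⟨j, x⟩
    rw [actP_gen (a := fun i => φ i c) e hm he, actP_gen (a := fun i => φ i c) e hm he]
  · intro i k
    funext ⟨j, x⟩
    have key : ∀ i, Multiplicative.ofAdd (Λ i x * extF (f i)
          ((pt (fun i => φ i c) τ i (actP e i (φ i c) (j, x)))⁻¹ * (φ i c) *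
            pt (fun i => φ i c) τ i (j, x))) =
        if j.val + 1 < m then 1 else
          Multiplicative.ofAdd (Λ i x * extF (f i) ((τ i (x i))⁻¹ * φ i c ^ m * τ i (x i))) := by
      intro i
      rw [actP_gen (a := fun i => φ i c) e hm he]
      have h1 : (pt (fun i => φ i c) τ i (j + 1, x))⁻¹ * (φ i c) *
            pt (fun i => φ i c) τ i (j, x) =
          (τ i (x i))⁻¹ * φ i c ^ (((j.val + 1 : ℕ) : ℤ) - ((j + 1).val : ℤ)) * τ i (x i) := by
        simp only [pt]
        rw [zpow_sub, zpow_natCast, zpow_natCast, pow_succ']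
        have : (φ i c * φ i c ^ j.val) * (φ i c ^ (j + 1).val)⁻¹ =
            (φ i c ^ (j + 1).val)⁻¹ * (φ i c * φ i c ^ j.val) := by
          rw [← pow_succ', ← zpow_natCast, ← zpow_natCast, ← zpow_neg, ← zpow_add, ← zpow_add,
            add_comm]
        rw [this]
        group
      rw [h1]
      by_cases hj : j.val + 1 < m
      · rw [if_pos hj, zmod_val_succ, Nat.mod_eq_of_lt hj]
        simp [extF_one]
      · rw [if_neg hj]
        have hj' : j.val + 1 = m := by
          have := ZMod.val_lt j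
          omega
        rw [zmod_val_succ, hj', Nat.mod_self]
        simp
    show Multiplicative.ofAdd (Λ i x * _) = Multiplicative.ofAdd (Λ k x * _)
    rw [key i, key k, hcons i k]

end Weights

section Cases

variable {ι : Type*} [Nonempty ι] [Finite ι] {C : Type*} [Group C] {G : ι → Type u}
  [∀ i, Group (G i)]

/-- The hypothesis on the order of the generator used below. -/
def OrdHyp (a : ∀ i, G i) : Prop :=
  (∀ i, ¬ IsOfFinOrder (a i)) ∨ ∃ m : ℕ, 0 < m ∧ ∀ i, orderOf (a i) = m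

lemma restrict_functional {H : Type*} [Group H] (K : Subgroup H) (f : K →* Multiplicative ℤ)
    (N : Subgroup H) (hNK : N ≤ K) {x : H} (hxN : x ∈ N) :
    extF (f.comp (Subgroup.inclusion hNK)) x = Multiplicative.toAdd (f ⟨x, hNK hxN⟩) := by
  rw [extF_mem _ hxN]; rfl

/-- Elliptic elements of infinite order. -/
lemma VS_elliptic (hG : ∀ i, VRC (G i)) (c : C) (hc : ∀ x, x ∈ Subgroup.zpowers c)
    (φ : ∀ i, C →* G i) (ho : OrdHyp (fun i => φ i c)) (i₀ : ι) (g : G i₀)
    (hg : ¬ IsOfFinOrder g) : VS (PushoutI.of i₀ g : PushoutI φ) := by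
  classical
  have := Fintype.ofFinite ι
  let b : ∀ i, G i := Function.update (fun i => φ i c) i₀ g
  have hb0 : b i₀ = g := Function.update_self _ _ _
  have hb1 : ∀ i, i ≠ i₀ → b i = φ i c := fun i hi => Function.update_of_ne hi _ _
  -- functionals
  have hbase : ∀ i, ∃ K : Subgroup (G i), K.FiniteIndex ∧ ∃ f : K →* Multiplicative ℤ,
      (¬ IsOfFinOrder (b i) → ∃ hK : b i ∈ K, f ⟨_, hK⟩ = Multiplicative.ofAdd 1) := by
    intro i
    by_cases h : IsOfFinOrder (b i)
    · exact ⟨⊤, inferInstance, 1, fun h' => absurd h h'⟩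
    · obtain ⟨K, h1, h2, f, h3⟩ := (hG i (b i)).functional h
      exact ⟨K, h1, f, fun _ => ⟨h2, h3⟩⟩
  choose K hK f hf using hbase
  obtain ⟨m, N, hm0, hor, hN⟩ := compat hG (fun i => φ i c) ho (fun i => (K i).normalCore)
    (fun i => inferInstance) (fun i => inferInstance)
  have : NeZero m := ⟨hm0.ne'⟩
  have hNn : ∀ i, (N i).Normal := fun i => (hN i).1
  have hNf : ∀ i, (N i).FiniteIndex := fun i => (hN i).2.1
  have hNK : ∀ i, N i ≤ K i := fun i => (hN i).2.2.1.trans (K i).normalCore_le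
  have hNm : ∀ i, ∀ k : ℤ, φ i c ^ k ∈ N i ↔ (m : ℤ) ∣ k := fun i => (hN i).2.2.2
  choose X hXf τ e he using fun i => exists_coord (φ i c) m (N i) (hNm i)
  let F : ∀ i, N i →* Multiplicative ℤ := fun i => (f i).comp (Subgroup.inclusion (hNK i))
  -- value on powers of `b i` lying in `N i`
  have hFb : ∀ i, ¬ IsOfFinOrder (b i) → ∀ n : ℕ, b i ^ n ∈ N i → extF (F i) (b i ^ n) = n := by
    intro i hi n hn
    obtain ⟨h1, h2⟩ := hf i hi
    rw [restrict_functional _ _ _ _ hn]
    have : (⟨b i ^ n, hNK i hn⟩ : K i) = ⟨b i, h1⟩ ^ n := rfl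
    rw [this, map_pow, h2]
    simp
  -- a good point for every index
  have hpt : ∀ i, ∃ (j : ZMod m) (y : X i), φ i c ^ j.val * τ i y ∈ N i := by
    intro i
    refine ⟨((e i).symm ((1 : G i) : G i ⧸ N i)).1, ((e i).symm ((1 : G i) : G i ⧸ N i)).2, ?_⟩
    have := he i ((e i).symm ((1 : G i) : G i ⧸ N i)).1 ((e i).symm ((1 : G i) : G i ⧸ N i)).2
    rw [Prod.mk.eta, Equiv.apply_symm_apply, QuotientGroup.eq] at this
    simpa using this
  choose j₀ y₀ hjy using hpt
  let s : ∀ i, X i → ℤ := fun i y => extF (F i) ((τ i y)⁻¹ * φ i c ^ m * τ i y)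
  have hs : ∀ i, i ≠ i₀ → ¬ IsOfFinOrder (φ i c) → s i (y₀ i) ≠ 0 := by
    intro i hi hi'
    have h1 : φ i c ^ m ∈ N i := by
      have := (hNm i m).mpr dvd_rfl
      simpa using this
    have h2 : (τ i (y₀ i))⁻¹ * φ i c ^ m * τ i (y₀ i) =
        (φ i c ^ (j₀ i).val * τ i (y₀ i))⁻¹ * φ i c ^ m * (φ i c ^ (j₀ i).val * τ i (y₀ i)) := by
      have : (φ i c ^ (j₀ i).val)⁻¹ * φ i c ^ m * φ i c ^ (j₀ i).val = φ i c ^ m := by
        have h3 : Commute (φ i c ^ (j₀ i).val) (φ i c ^ m) :=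
          (Commute.refl _).pow_pow _ _
        rw [mul_assoc, ← h3.eq, ← mul_assoc, inv_mul_cancel, one_mul]
      rw [mul_inv_rev]
      calc _ = (τ i (y₀ i))⁻¹ * ((φ i c ^ (j₀ i).val)⁻¹ * φ i c ^ m * φ i c ^ (j₀ i).val) *
            τ i (y₀ i) := by rw [this]
        _ = _ := by group
    show extF (F i) _ ≠ 0
    rw [h2, extF_conj _ h1 (hjy i)]
    have h4 := hFb i (by rw [hb1 i hi]; exact hi') m (by rw [hb1 i hi]; exact h1)
    rw [hb1 i hi] at h4
    rw [h4]
    exact_mod_cast hm0.ne'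
  -- the power of `g`
  obtain ⟨n, hn0, hng⟩ : ∃ n : ℕ, 0 < n ∧ g ^ n ∈ N i₀ :=
    ⟨(N i₀).index, Nat.pos_of_ne_zero (hNf i₀).index_ne_zero, Subgroup.pow_index_mem _ _⟩
  have hFg : extF (F i₀) (g ^ n) ≠ 0 := by
    have h1 := hFb i₀ (by rw [hb0]; exact hg) n (by rw [hb0]; exact hng)
    rw [hb0] at h1
    rw [h1]
    exact_mod_cast hn0.ne'
  -- the weights
  obtain ⟨Λ, hΛ, hcons, hΛ0⟩ : ∃ Λ : ι → (∀ i, X i) → ℤ,
      (∀ i x y, Λ i (Function.update x i y) = Λ i x) ∧
      (∀ i k x, Λ i x * s i (x i) = Λ k x * s k (x k)) ∧ Λ i₀ y₀ ≠ 0 := by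
    rcases hor with hinf | hfin
    · refine ⟨fun i x => ∏ k ∈ Finset.univ.erase i, s k (x k), ?_, ?_, ?_⟩
      · intro i x y
        apply Finset.prod_congr rfl
        intro k hk
        rw [Function.update_of_ne (Finset.ne_of_mem_erase hk)]
      · intro i k x
        rw [Finset.prod_erase_mul _ _ (Finset.mem_univ i),
          Finset.prod_erase_mul _ _ (Finset.mem_univ k)]
      · rw [Finset.prod_ne_zero_iff]
        intro k hk
        exact hs k (Finset.ne_of_mem_erase hk) (hinf k)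
    · have hs0 : ∀ i y, s i y = 0 := by
        intro i y
        have h1 : φ i c ^ m = 1 := hfin i
        simp only [s]
        rw [h1, mul_one, inv_mul_cancel, extF_one]
      refine ⟨fun _ _ => 1, fun _ _ _ => rfl, fun i k x => by rw [hs0, hs0], one_ne_zero⟩
  obtain ⟨Θ, hΘ1, hΘ2⟩ := weights c hc φ hNm he F Λ hΛ hcons
  have hfinX : Finite (ZMod m × ∀ i, X i) := inferInstance
  refine VS.of_perm Θ (fun g ω a => (hΘ1 g).apply ω a) (j₀ i₀, y₀) _ n hn0
    (Multiplicative.ofAdd (Λ i₀ y₀ * extF (F i₀) (g ^ n))) ?_ (VS.of_mint ?_)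
  · rw [← map_pow, hΘ2, actP_mem e i₀ _ hng]
    have : extF (F i₀) ((pt (fun i => φ i c) τ i₀ (j₀ i₀, y₀))⁻¹ * g ^ n *
        pt (fun i => φ i c) τ i₀ (j₀ i₀, y₀)) = extF (F i₀) (g ^ n) :=
      extF_conj _ hng (hjy i₀)
    simp only [Equiv.Perm.one_apply, mul_one]
    rw [this]
  · intro h
    have h1 : Λ i₀ y₀ * extF (F i₀) (g ^ n) = 0 := congrArg Multiplicative.toAdd h
    exact mul_ne_zero hΛ0 hFg h1

/-- Elliptic elements of finite order. -/
lemma torsion_elliptic (hG : ∀ i, VRC (G i)) (c : C) (hc : ∀ x, x ∈ Subgroup.zpowers c)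
    (φ : ∀ i, C →* G i) (ho : OrdHyp (fun i => φ i c)) (i₀ : ι) (g : G i₀)
    (hg : IsOfFinOrder g) :
    IsVirtualRetract (Subgroup.zpowers (PushoutI.of i₀ g : PushoutI φ)) := by
  classical
  have := Fintype.ofFinite ι
  have hav : ∀ i, ∃ M : Subgroup (G i), M.Normal ∧ M.FiniteIndex ∧
      ∀ h : i = i₀, ∀ k : ℤ, (h ▸ g : G i) ^ k ≠ 1 → (h ▸ g : G i) ^ k ∉ M := by
    intro i
    by_cases h : i = i₀
    · subst h
      obtain ⟨M, h1, h2, h3⟩ := (hG i).avoid (Subgroup.zpowers g : Set (G i)) hg.finite_zpowers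
      exact ⟨M, h1, h2, fun _ k hk => h3 _ (Subgroup.mem_zpowers_iff.mpr ⟨k, rfl⟩) hk⟩
    · exact ⟨⊤, inferInstance, inferInstance, fun h' => absurd h' h⟩
  choose M hM1 hM2 hM3 using hav
  obtain ⟨m, N, hm0, _, hN⟩ := compat hG (fun i => φ i c) ho M hM1 hM2
  have : NeZero m := ⟨hm0.ne'⟩
  have hNn : ∀ i, (N i).Normal := fun i => (hN i).1
  have hNf : ∀ i, (N i).FiniteIndex := fun i => (hN i).2.1
  have hNm : ∀ i, ∀ k : ℤ, φ i c ^ k ∈ N i ↔ (m : ℤ) ∣ k := fun i => (hN i).2.2.2
  choose X hXf τ e he using fun i => exists_coord (φ i c) m (N i) (hNm i)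
  obtain ⟨Θ, _, hΘ2⟩ := glue c hc φ (actP e) (A := Unit) (fun _ _ _ => 1)
    (fun _ _ _ _ => rfl)
    (fun i k => by
      apply Equiv.ext
      rintro ⟨j, x⟩
      rw [actP_gen (a := fun i => φ i c) e hNm he, actP_gen (a := fun i => φ i c) e hNm he])
    (fun _ _ => rfl)
  have : Finite (Equiv.Perm ((ZMod m × ∀ i, X i) × Unit)) := inferInstance
  refine isVirtualRetract_of_finite Θ (fun k hk => ?_)
  rw [← map_zpow] at hk ⊢
  have hne : Nonempty (∀ i, X i) := ⟨fun i => ((e i).symm ((1 : G i) : G i ⧸ N i)).2⟩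
  obtain ⟨x⟩ := hne
  have h1 := hΘ2 i₀ (g ^ k) ((0 : ZMod m), x) 1
  rw [hk] at h1
  have h2 : actP e i₀ (g ^ k) (0, x) = (0, x) := (congrArg Prod.fst h1).symm
  have h3 := mem_of_actP e i₀ (g ^ k) 0 x h2
  have h4 : g ^ k = 1 := by
    by_contra hne
    exact hM3 i₀ rfl k hne ((hN i₀).2.2.1 h3)
  rw [h4, map_one]

/-- The products `p_{n+k-1} ⋯ p_n`. -/
def pprod (φ : ∀ i, C →* G i) (p : ℕ → Σ i, G i) (n : ℕ) : ℕ → PushoutI φ
  | 0 => 1
  | (k + 1) => PushoutI.of (p (n + k)).1 (p (n + k)).2 * pprod φ p n k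

/-- Hyperbolic elements. -/
lemma VS_hyperbolic (hG : ∀ i, VRC (G i)) (c : C) (hc : ∀ x, x ∈ Subgroup.zpowers c)
    (φ : ∀ i, C →* G i) (ho : OrdHyp (fun i => φ i c)) (p : ℕ → Σ i, G i) (r : ℕ) (hr : 0 < r)
    (hper : ∀ n, p (n + r) = p n) (hne : ∀ n, (p (n + 1)).1 ≠ (p n).1)
    (hrange : ∀ n, (p n).2 ∉ (φ (p n).1).range) : VS (pprod φ p 0 r) := by
  classical
  have := Fintype.ofFinite ι
  have hpermod : ∀ n, p n = p (n % r) := by
    intro n
    induction n using Nat.strong_induction_on with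
    | _ n ih =>
      by_cases h : n < r
      · rw [Nat.mod_eq_of_lt h]
      · have h1 : n = (n - r) + r := by omega
        rw [h1, hper, ih (n - r) (by omega), Nat.add_mod_right]
  have hsep : ∀ i, ∃ M : Subgroup (G i), M.Normal ∧ M.FiniteIndex ∧
      ∀ b, (∃ n, p n = ⟨i, b⟩) → ∀ k : ℤ, φ i c ^ k * b ∉ M := by
    intro i
    have hfin : {b : G i | ∃ n, p n = ⟨i, b⟩}.Finite := by
      have h1 : (Set.range p).Finite := by
        apply (Set.finite_range (fun k : Fin r => p k)).subset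
        rintro _ ⟨n, rfl⟩
        exact ⟨⟨n % r, Nat.mod_lt _ hr⟩, (hpermod n).symm⟩
      apply h1.preimage (f := Sigma.mk i)
      exact sigma_mk_injective.injOn
    obtain ⟨M, h1, h2, h3⟩ := (hG i).separable_finite (φ i c) _ hfin
    refine ⟨M, h1, h2, fun b hb k => h3 b hb ?_ k⟩
    rintro ⟨k, hk⟩
    obtain ⟨n, hn⟩ := hb
    have := hrange n
    rw [hn] at this
    apply this
    exact ⟨c ^ k, by rw [map_zpow]; exact hk⟩
  choose M hM1 hM2 hM3 using hsep
  obtain ⟨m, N, hm0, _, hN⟩ := compat hG (fun i => φ i c) ho M hM1 hM2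
  have : NeZero m := ⟨hm0.ne'⟩
  have hNn : ∀ i, (N i).Normal := fun i => (hN i).1
  have hNf : ∀ i, (N i).FiniteIndex := fun i => (hN i).2.1
  have hNm : ∀ i, ∀ k : ℤ, φ i c ^ k ∈ N i ↔ (m : ℤ) ∣ k := fun i => (hN i).2.2.2
  choose X hXf τ e he using fun i => exists_coord (φ i c) m (N i) (hNm i)
  let u : (∀ i, X i) → ι → FreeGroup ((∀ i, X i) × ι) := fun x i => FreeGroup.of (x, i)
  obtain ⟨Θ, hΘ1, hΘ2⟩ := glue c hc φ (actP e)
    (fun i g ω => (u (actP e i g ω).2 i)⁻¹ * u ω.2 i)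
    (fun i g g' ω => by
      rw [map_mul, Equiv.Perm.mul_apply]; group)
    (fun i k => by
      apply Equiv.ext
      rintro ⟨j, x⟩
      rw [actP_gen (a := fun i => φ i c) e hNm he, actP_gen (a := fun i => φ i c) e hNm he])
    (fun i k => by
      funext ⟨j, x⟩
      rw [actP_gen (a := fun i => φ i c) e hNm he, actP_gen (a := fun i => φ i c) e hNm he]
      simp)
  have hne' : Nonempty (∀ i, X i) := ⟨fun i => ((e i).symm ((1 : G i) : G i ⧸ N i)).2⟩
  obtain ⟨x₀⟩ := hne'
  let ω : ℕ → ZMod m × ∀ i, X i := fun n =>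
    Nat.rec (0, x₀) (fun k w => actP e (p k).1 (p k).2 w) n
  have hω : ∀ n, ω (n + 1) = actP e (p n).1 (p n).2 (ω n) := fun _ => rfl
  have hωne : ∀ n, (ω (n + 1)).2 ≠ (ω n).2 := by
    intro n
    rw [hω]
    apply actP_snd_ne (a := fun i => φ i c) e he
    intro k hk
    exact hM3 (p n).1 (p n).2 ⟨n, rfl⟩ k ((hN (p n).1).2.2.1 hk)
  let W : ℕ → List (((∀ i, X i) × ι) × Bool) := fun n =>
    Nat.rec [] (fun k w => (((ω (k + 1)).2, (p k).1), false) :: (((ω k).2, (p k).1), true) :: w) n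
  have hW : ∀ n, W (n + 1) =
    (((ω (n + 1)).2, (p n).1), false) :: (((ω n).2, (p n).1), true) :: W n := fun _ => rfl
  have hred : ∀ n, FreeGroup.IsReduced (W (n + 1)) := by
    intro n
    induction n with
    | zero =>
      rw [hW]
      show List.IsChain _ _
      have : W 0 = [] := rfl
      rw [this]
      simp only [List.isChain_cons_cons, List.isChain_singleton, and_true]
      intro h
      exact absurd (congrArg Prod.fst h) (hωne 0)
    | succ n ih =>
      rw [hW]
      show List.IsChain _ _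
      have ih' : List.IsChain (fun a b : ((∀ i, X i) × ι) × Bool => a.1 = b.1 → a.2 = b.2)
        (W (n + 1)) := ih
      rw [hW] at ih' ⊢
      rw [List.isChain_cons_cons, List.isChain_cons_cons]
      refine ⟨?_, ?_, ih'⟩
      · intro h
        exact absurd (congrArg Prod.fst h) (hωne (n + 1))
      · intro h
        exact absurd (congrArg Prod.snd h) (hne n)
  have hmain : ∀ n, Θ (pprod φ p 0 n) (ω 0, 1) = (ω n, FreeGroup.mk (W n)) := by
    intro n
    induction n with
    | zero =>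
      show Θ 1 (ω 0, 1) = _
      rw [map_one]; rfl
    | succ n ih =>
      show Θ (PushoutI.of (p (0 + n)).1 (p (0 + n)).2 * pprod φ p 0 n) (ω 0, 1) = _
      rw [map_mul, Equiv.Perm.mul_apply, ih, zero_add, hΘ2, ← hω, hW]
      congr 1
  have hpow : ∀ k, pprod φ p 0 (r * k) = (pprod φ p 0 r) ^ k := by
    have hadd : ∀ k l, pprod φ p 0 (k + l) = pprod φ p k l * pprod φ p 0 k := by
      intro k l
      induction l with
      | zero => simp [pprod]
      | succ l ih =>
        rw [← add_assoc]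
        show PushoutI.of (p (0 + (k + l))).1 (p (0 + (k + l))).2 * pprod φ p 0 (k + l) =
          (PushoutI.of (p (k + l)).1 (p (k + l)).2 * pprod φ p k l) * _
        rw [ih, zero_add, mul_assoc]
    have hshift : ∀ k l, pprod φ p (r * k) l = pprod φ p 0 l := by
      intro k l
      induction l with
      | zero => rfl
      | succ l ih =>
        show PushoutI.of (p (r * k + l)).1 (p (r * k + l)).2 * pprod φ p (r * k) l =
          PushoutI.of (p (0 + l)).1 (p (0 + l)).2 * _
        have : p (r * k + l) = p (0 + l) := by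
          rw [hpermod (r * k + l), hpermod (0 + l), Nat.mul_add_mod, zero_add]
        rw [ih, this]
    intro k
    induction k with
    | zero => simp [pprod]
    | succ k ih => rw [Nat.mul_succ, hadd, hshift, ih, pow_succ']
  obtain ⟨K, hK, hmem, h, hh⟩ := stab_hom Θ (fun g ω a => (hΘ1 g).apply ω a) (ω 0)
  obtain ⟨k, hk0, _, hk⟩ := Subgroup.exists_pow_mem_of_index_ne_zero hK.index_ne_zero
    (pprod φ p 0 r)
  refine VS.of_hom K h k hk0 hk ?_
  rw [hh]
  show VS (Θ (pprod φ p 0 r ^ k) (ω 0, 1)).2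
  rw [← hpow, hmain]
  apply VS.freeGroup
  obtain ⟨n, hn⟩ : ∃ n, r * k = n + 1 := ⟨r * k - 1, by
    have := Nat.mul_pos hr hk0
    omega⟩
  rw [hn]
  intro h1
  have h2 := congrArg FreeGroup.toWord h1
  rw [FreeGroup.toWord_mk, (hred n).reduce_eq, FreeGroup.toWord_one, hW] at h2
  simp at h2

end Cases

section Reduction

variable {ι : Type*} {C : Type*} [Group C] {G : ι → Type u}
  [∀ i, Group (G i)] {φ : ∀ i, C →* G i}

/-- Product of a word. -/
def prodL (φ : ∀ i, C →* G i) (l : List (Σ i, G i)) : PushoutI φ :=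
  (l.map (fun p => PushoutI.of p.1 p.2)).prod

lemma exists_prodL [Nonempty ι] (g : PushoutI φ) : ∃ l, prodL φ l = g := by
  induction g using PushoutI.induction_on with
  | of i g => exact ⟨[⟨i, g⟩], by simp [prodL]⟩
  | base h =>
    obtain ⟨i⟩ := (inferInstance : Nonempty ι)
    exact ⟨[⟨i, φ i h⟩], by simp [prodL, PushoutI.of_apply_eq_base]⟩
  | mul x y hx hy =>
    obtain ⟨l, rfl⟩ := hx
    obtain ⟨l', rfl⟩ := hy
    exact ⟨l ++ l', by simp [prodL]⟩

/-- Every element of an amalgam is conjugate into a factor or is conjugate to a cyclically reduced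
product. -/
lemma trichotomy [Nonempty ι] (g : PushoutI φ) :
    (∃ (i : ι) (a : G i) (x : PushoutI φ), g = x * PushoutI.of i a * x⁻¹) ∨
    ∃ (p : ℕ → Σ i, G i) (r : ℕ) (x : PushoutI φ), 0 < r ∧ (∀ n, p (n + r) = p n) ∧
      (∀ n, (p (n + 1)).1 ≠ (p n).1) ∧ (∀ n, (p n).2 ∉ (φ (p n).1).range) ∧
      g = x * pprod φ p 0 r * x⁻¹ := by
  classical
  have hex : ∃ n : ℕ, ∃ l : List (Σ i, G i), l.length = n ∧
      ∃ x : PushoutI φ, g = x * prodL φ l * x⁻¹ := by
    obtain ⟨l, hl⟩ := exists_prodL g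
    exact ⟨l.length, l, rfl, 1, by rw [hl]; simp⟩
  obtain ⟨l, hlen, x, hx⟩ := Nat.find_spec hex
  have hmin : ∀ l' : List (Σ i, G i), (∃ x : PushoutI φ, g = x * prodL φ l' * x⁻¹) →
      l.length ≤ l'.length := by
    intro l' hl'
    rw [hlen]
    exact Nat.find_min' hex ⟨l', rfl, hl'⟩
  -- rotated words
  have hrot : ∀ l₁ l₂ : List (Σ i, G i), l = l₁ ++ l₂ →
      ∃ y : PushoutI φ, g = y * prodL φ (l₂ ++ l₁) * y⁻¹ := by
    intro l₁ l₂ h
    refine ⟨x * prodL φ l₁, ?_⟩
    rw [hx, h]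
    simp only [prodL, List.map_append, List.prod_append]
    group
  -- a word of minimal length has no mergeable neighbours
  have hmerge : ∀ (q q' : Σ i, G i) (t : List (Σ i, G i)), t.length + 2 = l.length →
      (∃ y : PushoutI φ, g = y * prodL φ (t ++ [q, q']) * y⁻¹) →
      q.1 ≠ q'.1 ∧ q'.2 ∉ (φ q'.1).range := by
    intro q q' t ht ⟨y, hy⟩
    constructor
    · intro h
      obtain ⟨i, a⟩ := q
      obtain ⟨i', a'⟩ := q'
      obtain rfl : i = i' := h
      have := hmin (t ++ [⟨i, a * a'⟩]) ⟨y, by rw [hy]; simp [prodL, mul_assoc]⟩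
      simp at this; omega
    · rintro ⟨b, hb⟩
      obtain ⟨i, a⟩ := q
      obtain ⟨i', a'⟩ := q'
      have hb' : φ i' b = a' := hb
      have h1 : (PushoutI.of i' a' : PushoutI φ) = PushoutI.of i (φ i b) := by
        rw [← hb', PushoutI.of_apply_eq_base, PushoutI.of_apply_eq_base]
      have := hmin (t ++ [⟨i, a * φ i b⟩]) ⟨y, by rw [hy]; simp [prodL, h1, mul_assoc]⟩
      simp at this; omega
  by_cases hlt : l.length < 2
  · left
    rcases l with _ | ⟨q, t⟩
    · obtain ⟨i⟩ := (inferInstance : Nonempty ι)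
      exact ⟨i, 1, x, by rw [hx]; simp [prodL]⟩
    · have : t = [] := by
        rw [← List.length_eq_zero_iff]
        rw [List.length_cons] at hlt
        omega
      subst this
      exact ⟨q.1, q.2, x, by rw [hx]; simp [prodL]⟩
  · right
    push Not at hlt
    set r := l.length with hr
    have hr0 : 0 < r := by omega
    -- `p n` is the letter at position `n` counted from the right, cyclically
    let p : ℕ → Σ i, G i := fun n => l.reverse[n % r]'(by
      rw [List.length_reverse]; exact Nat.mod_lt _ hr0)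
    have hpper : ∀ n, p (n + r) = p n := by
      intro n
      simp only [p, Nat.add_mod_right]
    let wl : ℕ → ℕ → List (Σ i, G i) := fun n k => Nat.rec [] (fun k t => p (n + k) :: t) k
    have hwl : ∀ n k, wl n (k + 1) = p (n + k) :: wl n k := fun _ _ => rfl
    have hwlen : ∀ n k, (wl n k).length = k := by
      intro n k
      induction k with
      | zero => rfl
      | succ k ih => rw [hwl, List.length_cons, ih]
    have hwprod : ∀ n k, prodL φ (wl n k) = pprod φ p n k := by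
      intro n k
      induction k with
      | zero => rfl
      | succ k ih =>
        rw [hwl]
        show _ = PushoutI.of (p (n + k)).1 (p (n + k)).2 * pprod φ p n k
        rw [← ih]
        simp [prodL]
    have hwl' : ∀ n k, wl n (k + 1) = wl (n + 1) k ++ [p n] := by
      intro n k
      induction k with
      | zero => rfl
      | succ k ih =>
        rw [hwl, ih, hwl (n + 1) k]
        have : n + (k + 1) = n + 1 + k := by ring
        rw [this]; rfl
    have hw0 : ∀ k, k ≤ r → wl 0 k = (l.reverse.take k).reverse := by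
      intro k
      induction k with
      | zero => intro _; rfl
      | succ k ih =>
        intro hk
        have hk' : k < l.reverse.length := by rw [List.length_reverse]; omega
        rw [hwl, ih (by omega), List.take_succ_eq_append_getElem hk', List.reverse_append]
        have : p (0 + k) = l.reverse[k] := by
          simp only [p, zero_add, Nat.mod_eq_of_lt (show k < r by omega)]
        rw [this]; rfl
    have hwr : wl 0 r = l := by
      rw [hw0 r le_rfl, List.take_of_length_le (by rw [List.length_reverse]), List.reverse_reverse]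
    have hP0 : g = x * pprod φ p 0 r * x⁻¹ := by rw [← hwprod, hwr, hx]
    have hPn : ∀ n, ∃ y : PushoutI φ, g = y * pprod φ p n r * y⁻¹ := by
      intro n
      induction n with
      | zero => exact ⟨x, hP0⟩
      | succ n ih =>
        obtain ⟨y, hy⟩ := ih
        have h1 : PushoutI.of (p (n + r)).1 (p (n + r)).2 * pprod φ p n r =
            pprod φ p (n + 1) r * PushoutI.of (p n).1 (p n).2 := by
          rw [← hwprod, ← hwprod]
          have h2 := hwl n r
          rw [hwl'] at h2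
          have h3 := congrArg (prodL φ) h2
          simp only [prodL, List.map_append, List.prod_append, List.map_cons, List.prod_cons,
            List.map_nil, List.prod_nil, mul_one] at h3 ⊢
          exact h3.symm
        rw [hpper] at h1
        refine ⟨y * (PushoutI.of (p n).1 (p n).2)⁻¹, ?_⟩
        have h4 : pprod φ p (n + 1) r = PushoutI.of (p n).1 (p n).2 * pprod φ p n r *
            (PushoutI.of (p n).1 (p n).2)⁻¹ := by
          rw [h1]; group
        rw [h4, hy]
        group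
    obtain ⟨r', hr'⟩ : ∃ r', r = r' + 2 := ⟨r - 2, by omega⟩
    have hfinal : ∀ n, (p (n + 1)).1 ≠ (p n).1 ∧ (p n).2 ∉ (φ (p n).1).range := by
      intro n
      obtain ⟨y, hy⟩ := hPn n
      refine hmerge (p (n + 1)) (p n) (wl (n + 2) r') (by rw [hwlen]; omega) ⟨y, ?_⟩
      rw [hy, ← hwprod]
      congr 3
      rw [hr', hwl', hwl']
      simp
    exact ⟨p, r, x, hr0, hpper, fun n => (hfinal n).1, fun n => (hfinal n).2, hP0⟩

end Reduction

/-- **Main theorem.** The class of groups with (VRC) is closed under amalgamated products over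
cyclic groups. -/
theorem result {ι : Type*} [Nonempty ι] [Finite ι] {C : Type*} [Group C] [IsCyclic C]
    {G : ι → Type u} [∀ i, Group (G i)] (φ : ∀ i, C →* G i)
    (hφ : ∀ i, Function.Injective (φ i)) (hG : ∀ i, VRC (G i)) : VRC (PushoutI φ) := by
  obtain ⟨c, hc⟩ := IsCyclic.exists_generator (α := C)
  have ho : OrdHyp (fun i => φ i c) := by
    by_cases h : IsOfFinOrder c
    · right
      exact ⟨orderOf c, h.orderOf_pos, fun i => orderOf_injective (φ i) (hφ i) c⟩
    · left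
      intro i hi
      exact h ((hφ i).isOfFinOrder_iff.mp hi)
  intro g
  rcases trichotomy g with ⟨i, a, x, rfl⟩ | ⟨p, r, x, hr, hper, hne, hrange, rfl⟩
  · apply IsVirtualRetract.conj
    by_cases ha : IsOfFinOrder a
    · exact torsion_elliptic hG c hc φ ho i a ha
    · exact (VS_elliptic hG c hc φ ho i a ha).isVirtualRetract
  · apply IsVirtualRetract.conj
    exact (VS_hyperbolic hG c hc φ ho p r hr hper hne hrange).isVirtualRetract

end Pool.Agent.Results.MP_3982fc_al.CyclicAmalgamVRC
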