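import Mathlib
import Pool.Agent.VSp.Defs
import Pool.Agent.VSp.Assembly

set_option autoImplicit false

namespace Pool.Agent.Results.MP_3982fc_al.CyclicAmalgamVSpecial

open Monoid VSp

universe u v

/-- The class of virtually special groups is closed under amalgamated products over cyclic
groups. -/
theorem result {ι : Type} [Nonempty ι] [Finite ι] {C : Type v} [Group C] [IsCyclic C]
    {G : ι → Type u} [∀ i, Group (G i)] (φ : ∀ i, C →* G i)
    (hφ : ∀ i, Function.Injective (φ i)) (hG : ∀ i, VirtSpecial (G i)) :
    VirtSpecial (PushoutI φ) :=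
  virtSpecial_pushout φ hφ hG

end Pool.Agent.Results.MP_3982fc_al.CyclicAmalgamVSpecial
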