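import Mathlib
import Pool.Agent.VSp.Defs
import Pool.Agent.VSp.Assembly
import Pool.Agent.Helper29.VRC.Main
import Pool.Agent.Helper29.RFRS.Defs
import Pool.Agent.Helper29.RFRS.Main

set_option autoImplicit false

namespace Pool.Agent.Results.MP_3982fc_al.CyclicAmalgams

open Monoid

universe u v

/-- Names of the three classes of the question. -/
inductive Cls
  | virtuallySpecial
  | virtuallyRFRS
  | vrc

/-- The group `G` belongs to the class `F`. -/
def InClass (F : Cls) (G : Type u) [Group G] : Prop :=
  match F with
  | .virtuallySpecial => VSp.VirtSpecial G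
  | .virtuallyRFRS => Pool.Agent.Helper29.VirtuallyRFRS G
  | .vrc => Pool.Agent.Helper29.VRC G

/-- Each of the three classes (virtually special, virtually RFRS, (VRC)) is closed under
amalgamated products over cyclic groups. -/
theorem result (F : Cls) {ι : Type} [Nonempty ι] [Finite ι] {C : Type v} [Group C] [IsCyclic C]
    {G : ι → Type u} [∀ i, Group (G i)] (φ : ∀ i, C →* G i)
    (hφ : ∀ i, Function.Injective (φ i)) (hG : ∀ i, InClass F (G i)) :
    InClass F (PushoutI φ) := by
  cases F with
  | virtuallySpecial => exact VSp.virtSpecial_pushout φ hφ hG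
  | virtuallyRFRS => exact Pool.Agent.Helper29.VRFRS_pushout φ hφ hG
  | vrc => exact Pool.Agent.Helper29.VRC_pushout φ hφ hG

end Pool.Agent.Results.MP_3982fc_al.CyclicAmalgams
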